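import Mathlib
import Pool.Agent.H3.Ac.Snd

set_option autoImplicit false
set_option linter.unusedSectionVars false

/-!
# Conjunctions of lists of formulas in a world
-/

namespace Pool.Agent.H3.Alg

open Finset Pool.Agent.H3.Frg Pool.Agent.H3.Frg2 Pool.Agent.H3.Ac

variable {W V : Type} [Fintype V] [DecidableEq V]

/-- the implication `A₁ → (A₂ → … → ⊥)` -/
def ch (v0 : W) (l : List (Fm W)) : Fm W := l.foldr Fm.imp (bot v0)

/-- the conjunction of a list of formulas -/
def cj (v0 : W) (l : List (Fm W)) : Fm W := Fm.neg (ch v0 l)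

variable {val : Fm W → Finset (Sym2 V) → Option Bool} {S : Set (Fm W)} {w r : ℕ}

theorem bnot_of {b c : Bool} (h : b = !c) (hb : b = true) : c = false := by
  subst hb; cases c <;> simp_all

/-- if the implication is false at `M`, none of the formulas is false at `M` -/
theorem ch_false (hval : ∀ A ∈ S, Val w r (val A)) (hcoh : Coh val S) (hS : SubCl S) (v0 : W)
    (hroom : 2 * (2 * w + w * 2) + r ≤ Fintype.card V) (l : List (Fm W)) :
    ch v0 l ∈ S → ∀ A ∈ l, ∀ M : Finset (Sym2 V), IsM M → val (ch v0 l) M = some false →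
      val A M ≠ some false := by
  induction l with
  | nil =>
    intro _ A hA
    exact absurd hA (List.not_mem_nil)
  | cons B l ih =>
    intro hC A hA M hM hf hAf
    have hC' : Fm.imp B (ch v0 l) ∈ S := hC
    have hBS := (hS.2 _ _ hC').1
    have hlS := (hS.2 _ _ hC').2
    have hAS : A ∈ S := by
      have : ∀ (l : List (Fm W)), ch v0 l ∈ S → ∀ A ∈ l, A ∈ S := by
        intro l
        induction l with
        | nil => intro _ A hA; exact absurd hA (List.not_mem_nil)
        | cons B l ih =>
          intro h A hA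
          have h' : Fm.imp B (ch v0 l) ∈ S := h
          rcases List.mem_cons.1 hA with rfl | hA
          · exact (hS.2 _ _ h').1
          · exact ih (hS.2 _ _ h').2 A hA
      exact this _ hC A hA
    obtain ⟨t1, a1, a2, a3⟩ := (hval _ hC).wit M hM false hf
    obtain ⟨t2, b1, b2, b3⟩ := (hval _ hAS).wit M hM false hAf
    have hu : t1 ∪ t2 ⊆ M := Finset.union_subset a1 b1
    have huM : IsM (t1 ∪ t2) := isM_sub hM hu
    have hcard : (t1 ∪ t2).card ≤ 2 * w := (Finset.card_union_le _ _).trans (by omega)
    obtain ⟨M', h1, h2, _, h4⟩ := snd_decide hval [B, ch v0 l] (by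
      intro X hX
      simp only [List.mem_cons, List.not_mem_nil, or_false] at hX
      rcases hX with rfl | rfl
      · exact hBS
      · exact hlS) (t1 ∪ t2) huM (by
        refine le_trans ?_ hroom
        show 2 * ((t1 ∪ t2).card + w * 2) + r ≤ _
        omega)
    have e1 := (hval _ hC).mono t1 M' h1 (Finset.subset_union_left.trans h2) false a3
    have e2 := (hval _ hAS).mono t2 M' h1 (Finset.subset_union_right.trans h2) false b3
    obtain ⟨b, hb⟩ := Option.ne_none_iff_exists'.1 (h4 B (by simp))
    obtain ⟨c, hc⟩ := Option.ne_none_iff_exists'.1 (h4 (ch v0 l) (by simp))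
    have e3 := hcoh.imp B (ch v0 l) hC' M' h1 b c false hb hc e1
    rcases List.mem_cons.1 hA with rfl | hA
    · rw [e2] at hb
      rw [← Option.some.inj hb] at e3
      exact absurd e3 (by simp)
    · have hc' : c = false := by
        cases c
        · rfl
        · exact absurd e3 (by simp)
      rw [hc'] at hc
      exact ih hlS A hA M' h1 hc e2

/-- if none of the formulas is false above the small matching `t`, the implication is not true above
`t` -/
theorem ch_true (hval : ∀ A ∈ S, Val w r (val A)) (hcoh : Coh val S) (hS : SubCl S) (v0 : W)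
    (q : ℕ) (hroom : 2 * (q + w + w * 2) + r ≤ Fintype.card V) (t : Finset (Sym2 V))
    (ht : t.card ≤ q) (l : List (Fm W)) :
    ch v0 l ∈ S → (∀ A ∈ l, ∀ M : Finset (Sym2 V), IsM M → t ⊆ M → val A M ≠ some false) →
      ∀ M : Finset (Sym2 V), IsM M → t ⊆ M → val (ch v0 l) M ≠ some true := by
  induction l with
  | nil =>
    intro hC _ M hM htM hT
    have hC' : Fm.neg (Fm.imp (Fm.var v0) (Fm.var v0)) ∈ S := hC
    have h1 := hS.1 _ hC'
    have h2 := (hS.2 _ _ h1).1
    obtain ⟨M', h4, h5, h6⟩ := snd_wit hval hC hM hT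
      [Fm.imp (Fm.var v0) (Fm.var v0), Fm.var v0] (by
        intro X hX
        simp only [List.mem_cons, List.not_mem_nil, or_false] at hX
        rcases hX with rfl | rfl
        · exact h1
        · exact h2) (by
        refine le_trans ?_ hroom
        show 2 * (w + w * 2) + r ≤ _
        omega)
    obtain ⟨b, hb⟩ := Option.ne_none_iff_exists'.1
      (h6 (Fm.imp (Fm.var v0) (Fm.var v0)) (by simp))
    obtain ⟨c, hc⟩ := Option.ne_none_iff_exists'.1 (h6 (Fm.var v0) (by simp))
    have e1 := hcoh.imp _ _ h1 M' h4 c c b hc hc hb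
    have e2 := hcoh.neg _ hC' M' h4 b true hb h5
    rw [e1] at e2
    cases c <;> simp at e2
  | cons B l ih =>
    intro hC hno M hM htM hT
    have hC' : Fm.imp B (ch v0 l) ∈ S := hC
    have hBS := (hS.2 _ _ hC').1
    have hlS := (hS.2 _ _ hC').2
    obtain ⟨s, a1, a2, a3⟩ := (hval _ hC).wit M hM true hT
    have hu : t ∪ s ⊆ M := Finset.union_subset htM a1
    have huM : IsM (t ∪ s) := isM_sub hM hu
    have hcard : (t ∪ s).card ≤ q + w := (Finset.card_union_le _ _).trans (by omega)
    obtain ⟨M', h1, h2, _, h4⟩ := snd_decide hval [B, ch v0 l] (by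
      intro X hX
      simp only [List.mem_cons, List.not_mem_nil, or_false] at hX
      rcases hX with rfl | rfl
      · exact hBS
      · exact hlS) (t ∪ s) huM (by
        refine le_trans ?_ hroom
        show 2 * ((t ∪ s).card + w * 2) + r ≤ _
        omega)
    have e1 := (hval _ hC).mono s M' h1 (Finset.subset_union_right.trans h2) true a3
    have htM' : t ⊆ M' := Finset.subset_union_left.trans h2
    obtain ⟨b, hb⟩ := Option.ne_none_iff_exists'.1 (h4 B (by simp))
    obtain ⟨c, hc⟩ := Option.ne_none_iff_exists'.1 (h4 (ch v0 l) (by simp))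
    have e3 := hcoh.imp B (ch v0 l) hC' M' h1 b c true hb hc e1
    have hb' : b = true := by
      cases b
      · exact absurd hb (hno B (by simp) M' h1 htM')
      · rfl
    have hc' : c = true := by
      rw [hb'] at e3
      cases c
      · exact absurd e3 (by simp)
      · rfl
    rw [hc'] at hc
    exact ih hlS (fun A hA => hno A (by simp [hA])) M' h1 htM' hc

theorem ch_mem (hS : SubCl S) (v0 : W) (l : List (Fm W)) (h : ch v0 l ∈ S) :
    ∀ A ∈ l, A ∈ S := by
  induction l with
  | nil => intro A hA; exact absurd hA (List.not_mem_nil)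
  | cons B l ih =>
    intro A hA
    have h' : Fm.imp B (ch v0 l) ∈ S := h
    rcases List.mem_cons.1 hA with rfl | hA
    · exact (hS.2 _ _ h').1
    · exact ih (hS.2 _ _ h').2 A hA

/-- the conjunction of a union of two lists is the conjunction of the conjunctions -/
theorem cj_union (hval : ∀ A ∈ S, Val w r (val A)) (hcoh : Coh val S) (hS : SubCl S) (v0 : W)
    (hroom : 2 * (2 * w + w + w * 2) + r ≤ Fintype.card V) {l l1 l2 : List (Fm W)}
    (hl : ∀ A, A ∈ l ↔ A ∈ l1 ∨ A ∈ l2) (h : cj v0 l ∈ S) (h1 : cj v0 l1 ∈ S) (h2 : cj v0 l2 ∈ S)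
    {M : Finset (Sym2 V)} (hM : IsM M) {b b1 b2 c c1 c2 : Bool}
    (hb : val (cj v0 l) M = some b) (hb1 : val (cj v0 l1) M = some b1)
    (hb2 : val (cj v0 l2) M = some b2) (hc : val (ch v0 l) M = some c)
    (hc1 : val (ch v0 l1) M = some c1) (hc2 : val (ch v0 l2) M = some c2) :
    b = (b1 && b2) := by
  have g : ch v0 l ∈ S := hS.1 _ h
  have g1 : ch v0 l1 ∈ S := hS.1 _ h1
  have g2 : ch v0 l2 ∈ S := hS.1 _ h2
  have e := hcoh.neg _ h M hM c b hc hb
  have e1 := hcoh.neg _ h1 M hM c1 b1 hc1 hb1
  have e2 := hcoh.neg _ h2 M hM c2 b2 hc2 hb2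
  have hr1 : 2 * (2 * w + w * 2) + r ≤ Fintype.card V := by omega
  -- if the union is false, then so are the parts
  have key1 : ∀ (l' : List (Fm W)), (∀ A ∈ l', A ∈ l) → ch v0 l' ∈ S → c = false →
      val (ch v0 l') M ≠ some true := by
    intro l' hl' hl'S hcf hT
    rw [hcf] at hc
    obtain ⟨t, a1, a2, a3⟩ := (hval _ g).wit M hM false hc
    refine ch_true hval hcoh hS v0 w (by omega) t a2 l' hl'S ?_ M hM a1 hT
    intro A hA N hN htN
    exact ch_false hval hcoh hS v0 hr1 l g A (hl' A hA) N hN
      ((hval _ g).mono t N hN htN false a3)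
  have key2 : c1 = false → c2 = false → val (ch v0 l) M ≠ some true := by
    intro hf1 hf2 hT
    rw [hf1] at hc1
    rw [hf2] at hc2
    obtain ⟨t1, a1, a2, a3⟩ := (hval _ g1).wit M hM false hc1
    obtain ⟨t2, b1', b2', b3⟩ := (hval _ g2).wit M hM false hc2
    refine ch_true hval hcoh hS v0 (2 * w) (by omega) (t1 ∪ t2)
      ((Finset.card_union_le _ _).trans (by omega)) l g ?_ M hM (Finset.union_subset a1 b1') hT
    intro A hA N hN htN
    rcases (hl A).1 hA with h' | h'
    · exact ch_false hval hcoh hS v0 hr1 l1 g1 A h' N hN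
        ((hval _ g1).mono t1 N hN (Finset.subset_union_left.trans htN) false a3)
    · exact ch_false hval hcoh hS v0 hr1 l2 g2 A h' N hN
        ((hval _ g2).mono t2 N hN (Finset.subset_union_right.trans htN) false b3)
  have k1 : c = false → c1 = false := by
    intro hcf
    have := key1 l1 (fun A hA => (hl A).2 (Or.inl hA)) g1 hcf
    rw [hc1] at this
    cases c1
    · rfl
    · exact absurd rfl this
  have k2 : c = false → c2 = false := by
    intro hcf
    have := key1 l2 (fun A hA => (hl A).2 (Or.inr hA)) g2 hcf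
    rw [hc2] at this
    cases c2
    · rfl
    · exact absurd rfl this
  have k3 : c1 = false → c2 = false → c = false := by
    intro hf1 hf2
    have := key2 hf1 hf2
    rw [hc] at this
    cases c
    · rfl
    · exact absurd rfl this
  subst e e1 e2
  cases c <;> cases c1 <;> cases c2 <;> simp_all

/-- the conjunction of one formula -/
theorem cj_single (hcoh : Coh val S) (hS : SubCl S) (v0 : W) (A : Fm W) (h : cj v0 [A] ∈ S)
    {M : Finset (Sym2 V)} (hM : IsM M) {b c x : Bool} (hb : val (cj v0 [A]) M = some b)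
    (hc : val (ch v0 [A]) M = some c) (hx : val A M = some x) (hn : val (ch v0 []) M = some false) :
    b = x := by
  have g : ch v0 [A] ∈ S := hS.1 _ h
  have e := hcoh.neg _ h M hM c b hc hb
  have e1 := hcoh.imp A (ch v0 []) g M hM x false c hx hn hc
  rw [e, e1]
  cases x <;> rfl

/-- the false formula -/
theorem bot_false (hcoh : Coh val S) (hS : SubCl S) (v0 : W) (h : ch v0 ([] : List (Fm W)) ∈ S)
    {M : Finset (Sym2 V)} (hM : IsM M) {b c x : Bool} (hb : val (ch v0 []) M = some b)
    (hc : val (Fm.imp (Fm.var v0) (Fm.var v0)) M = some c) (hx : val (Fm.var v0) M = some x) :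
    b = false := by
  have h' : Fm.neg (Fm.imp (Fm.var v0) (Fm.var v0)) ∈ S := h
  have h1 := hS.1 _ h'
  have e1 := hcoh.imp _ _ h1 M hM x x c hx hx hc
  have e2 := hcoh.neg _ h' M hM c b hc hb
  rw [e2, e1]
  cases x <;> rfl

end Pool.Agent.H3.Alg
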