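import Mathlib
import Pool.Agent.H3.Frg.Tseitin

set_option autoImplicit false
set_option linter.unusedSectionVars false

/-!
# Fourier analysis and the Tseitin pseudo-expectation with values in a field

`K` is a field with `2 ≠ 0`. `kchi S z` is the character, `kW f S` the unnormalised coefficient,
`KDg f b` says that the coefficients of all sets with more than `b` elements vanish, `kEt` is the
pseudo-expectation of a Tseitin system on an expander.
-/

namespace Pool.Agent.H3.Alg

open Finset Pool.Agent.H3.Frg

variable {K : Type} [Field K]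

/-- sign of a bit -/
def ksg (K : Type) [Field K] (b : Bool) : K := if b then -1 else 1

theorem ksg_mul_self (b : Bool) : ksg K b * ksg K b = 1 := by
  cases b <;> simp [ksg]

variable {E : Type} [Fintype E] [DecidableEq E]

/-- character -/
def kchi (K : Type) [Field K] (S : Finset E) (x : E → Bool) : K := ∏ i ∈ S, ksg K (x i)

theorem kchi_empty (x : E → Bool) : kchi K (∅ : Finset E) x = 1 := by simp [kchi]

theorem kchi_eq_univ (S : Finset E) (x : E → Bool) :
    kchi K S x = ∏ i, (if i ∈ S then ksg K (x i) else 1) := by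
  unfold kchi
  rw [Finset.prod_ite_mem, Finset.univ_inter]

theorem kchi_mul (S T : Finset E) (x : E → Bool) :
    kchi K S x * kchi K T x = kchi K (symmDiff S T) x := by
  rw [kchi_eq_univ, kchi_eq_univ, kchi_eq_univ, ← Finset.prod_mul_distrib]
  refine Finset.prod_congr rfl fun i _ => ?_
  by_cases h1 : i ∈ S <;> by_cases h2 : i ∈ T <;>
    simp [h1, h2, Finset.mem_symmDiff, ksg_mul_self]

theorem kchi_mul_self (S : Finset E) (x : E → Bool) : kchi K S x * kchi K S x = 1 := by
  rw [kchi_mul, symmDiff_self]; exact kchi_empty x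

theorem ksum_chi_chi (x y : E → Bool) :
    ∑ S : Finset E, kchi K S x * kchi K S y = if x = y then (2 : K) ^ Fintype.card E else 0 := by
  have h : ∑ S : Finset E, kchi K S x * kchi K S y = ∏ i, (1 + ksg K (x i) * ksg K (y i)) := by
    rw [Finset.prod_one_add]
    simp only [Finset.powerset_univ]
    refine Finset.sum_congr rfl fun S _ => ?_
    unfold kchi
    rw [Finset.prod_mul_distrib]
  rw [h]
  split_ifs with hxy
  · subst hxy
    simp only [ksg_mul_self]
    rw [Finset.prod_const, Finset.card_univ]
    norm_num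
  · obtain ⟨i, hi⟩ := Function.ne_iff.mp hxy
    refine Finset.prod_eq_zero (Finset.mem_univ i) ?_
    revert hi
    cases x i <;> cases y i <;> simp [ksg]

theorem ksum_x_chi (S : Finset E) :
    ∑ x : E → Bool, kchi K S x = if S = ∅ then (2 : K) ^ Fintype.card E else 0 := by
  have h : ∑ x : E → Bool, kchi K S x = ∏ i, ∑ b : Bool, (if i ∈ S then ksg K b else 1) := by
    rw [Finset.prod_univ_sum]
    simp only [Fintype.piFinset_univ]
    exact Finset.sum_congr rfl fun x _ => kchi_eq_univ S x
  rw [h]
  split_ifs with hS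
  · subst hS
    simp
  · obtain ⟨i, hi⟩ := Finset.nonempty_iff_ne_empty.mpr hS
    refine Finset.prod_eq_zero (Finset.mem_univ i) ?_
    simp [hi, ksg]

/-- unnormalised transform -/
def kW (f : (E → Bool) → K) (S : Finset E) : K := ∑ x, f x * kchi K S x

theorem kinversion (f : (E → Bool) → K) (y : E → Bool) :
    ∑ S : Finset E, kW f S * kchi K S y = (2 : K) ^ Fintype.card E * f y := by
  unfold kW
  simp only [Finset.sum_mul]
  rw [Finset.sum_comm]
  have : ∀ x : E → Bool, ∑ S : Finset E, f x * kchi K S x * kchi K S y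
      = f x * (if x = y then (2 : K) ^ Fintype.card E else 0) := by
    intro x
    rw [← ksum_chi_chi, Finset.mul_sum]
    exact Finset.sum_congr rfl fun S _ => by ring
  simp only [this]
  simp [mul_comm]

theorem kW_chi (R T : Finset E) :
    kW (kchi K R) T = if R = T then (2 : K) ^ Fintype.card E else 0 := by
  unfold kW
  have h1 : ∑ x : E → Bool, kchi K R x * kchi K T x = ∑ x : E → Bool, kchi K (symmDiff R T) x :=
    Finset.sum_congr rfl fun x _ => kchi_mul R T x
  rw [h1, ksum_x_chi]
  refine if_congr ?_ rfl rfl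
  rw [← Finset.bot_eq_empty]; exact symmDiff_eq_bot

theorem kW_chi_mul (p : (E → Bool) → K) (S T : Finset E) :
    kW (fun z => kchi K S z * p z) T = kW p (symmDiff S T) := by
  unfold kW
  refine Finset.sum_congr rfl fun z _ => ?_
  rw [← kchi_mul]; ring

theorem kW_add (p q : (E → Bool) → K) (T : Finset E) :
    kW (fun z => p z + q z) T = kW p T + kW q T := by
  unfold kW
  rw [← Finset.sum_add_distrib]
  exact Finset.sum_congr rfl fun z _ => by ring

theorem kW_smul (c : K) (p : (E → Bool) → K) (T : Finset E) :
    kW (fun z => c * p z) T = c * kW p T := by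
  unfold kW
  rw [Finset.mul_sum]
  exact Finset.sum_congr rfl fun z _ => by ring

/-- degree at most `D` -/
def KDg (r : (E → Bool) → K) (D : ℕ) : Prop := ∀ T : Finset E, D < T.card → kW r T = 0

theorem KDg_mono {r : (E → Bool) → K} {D D' : ℕ} (hr : KDg r D) (h : D ≤ D') : KDg r D' :=
  fun T hT => hr T (by omega)

theorem KDg_add {r q : (E → Bool) → K} {D : ℕ} (hr : KDg r D) (hq : KDg q D) :
    KDg (fun z => r z + q z) D := by
  intro T hT
  rw [kW_add, hr T hT, hq T hT, add_zero]

theorem KDg_smul {r : (E → Bool) → K} {D : ℕ} (c : K) (hr : KDg r D) :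
    KDg (fun z => c * r z) D := by
  intro T hT
  rw [kW_smul, hr T hT, mul_zero]

theorem KDg_chi (R : Finset E) : KDg (kchi K R) R.card := by
  intro T hT
  rw [kW_chi, if_neg]
  rintro rfl
  omega

theorem KDg_mul (h2 : (2 : K) ≠ 0) {r q : (E → Bool) → K} {D D' : ℕ} (hr : KDg r D)
    (hq : KDg q D') : KDg (fun z => r z * q z) (D + D') := by
  intro T hT
  have h1 : (2 : K) ^ Fintype.card E * kW (fun z => r z * q z) T
      = ∑ S : Finset E, kW r S * kW q (symmDiff S T) := by
    have h2 : ∀ S : Finset E, kW r S * kW q (symmDiff S T)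
        = ∑ z : E → Bool, kW r S * kchi K S z * (q z * kchi K T z) := by
      intro S
      rw [← kW_chi_mul]
      unfold kW
      rw [Finset.mul_sum]
      exact Finset.sum_congr rfl fun z _ => by ring
    simp only [h2]
    rw [Finset.sum_comm]
    simp only [← Finset.sum_mul, kinversion]
    unfold kW
    rw [Finset.mul_sum]
    exact Finset.sum_congr rfl fun z _ => by ring
  have h3 : ∑ S : Finset E, kW r S * kW q (symmDiff S T) = 0 := by
    refine Finset.sum_eq_zero fun S _ => ?_
    by_cases hS : D < S.card
    · rw [hr S hS, zero_mul]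
    · have h4 : T.card ≤ S.card + (symmDiff S T).card := by
        have h5 : T = symmDiff S (symmDiff S T) := (sd_sd S T).symm
        conv_lhs => rw [h5]
        exact card_symmDiff_le' _ _
      rw [hq _ (by omega), mul_zero]
  rw [h3] at h1
  exact (mul_eq_zero.mp h1).resolve_left (pow_ne_zero _ h2)

variable {Wv : Type} [Fintype Wv] [DecidableEq Wv]

/-- product of signs -/
def keps (ε : Wv → K) (X : Finset Wv) : K := ∏ w ∈ X, ε w

theorem keps_symmDiff {ε : Wv → K} (hε : ∀ w, ε w * ε w = 1) (X Y : Finset Wv) :
    keps ε (symmDiff X Y) = keps ε X * keps ε Y := by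
  have h : ∀ X : Finset Wv, keps ε X = ∏ w, (if w ∈ X then ε w else 1) := by
    intro X
    unfold keps
    rw [Finset.prod_ite_mem, Finset.univ_inter]
  rw [h, h, h, ← Finset.prod_mul_distrib]
  refine Finset.prod_congr rfl fun i _ => ?_
  by_cases h1 : i ∈ X <;> by_cases h2 : i ∈ Y <;> simp [h1, h2, Finset.mem_symmDiff, hε]

theorem keps_mul_self {ε : Wv → K} (hε : ∀ w, ε w * ε w = 1) (X : Finset Wv) :
    keps ε X * keps ε X = 1 := by
  rw [← keps_symmDiff hε, symmDiff_self]
  simp [keps]

/-- the pseudo-expectation -/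
noncomputable def kEt (src tgt : E → Wv) (d : ℕ) (ε : Wv → K) (g : (E → Bool) → K) : K :=
  ∑ X ∈ smallL src tgt d, keps ε X * kW g (bd src tgt X)

variable {src tgt : E → Wv} {d : ℕ} {ε : Wv → K}

theorem kEt_add (p q : (E → Bool) → K) :
    kEt src tgt d ε (fun z => p z + q z) = kEt src tgt d ε p + kEt src tgt d ε q := by
  unfold kEt
  rw [← Finset.sum_add_distrib]
  exact Finset.sum_congr rfl fun X _ => by rw [kW_add]; ring

theorem kEt_smul (c : K) (p : (E → Bool) → K) :
    kEt src tgt d ε (fun z => c * p z) = c * kEt src tgt d ε p := by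
  unfold kEt
  rw [Finset.mul_sum]
  exact Finset.sum_congr rfl fun X _ => by rw [kW_smul]; ring

theorem kEt_sum {ι : Type} (s : Finset ι) (c : ι → K) (p : ι → (E → Bool) → K) :
    kEt src tgt d ε (fun z => ∑ i ∈ s, c i * p i z) = ∑ i ∈ s, c i * kEt src tgt d ε (p i) := by
  classical
  induction s using Finset.induction_on with
  | empty =>
    simp only [Finset.sum_empty]
    unfold kEt kW
    simp
  | insert a s ha ih =>
    rw [Finset.sum_insert ha, ← ih, ← kEt_smul, ← kEt_add]
    congr 1
    funext z
    rw [Finset.sum_insert ha]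

/-- `p` is pseudo-equal to zero, tested against characters of size at most `k` -/
def KZ (src tgt : E → Wv) (d : ℕ) (ε : Wv → K) (k : ℕ) (p : (E → Bool) → K) : Prop :=
  ∀ R : Finset E, R.card ≤ k → kEt src tgt d ε (fun z => kchi K R z * p z) = 0

theorem KZ_mono {k k' : ℕ} {p : (E → Bool) → K} (h : KZ src tgt d ε k p) (hk : k' ≤ k) :
    KZ src tgt d ε k' p := fun R hR => h R (hR.trans hk)

theorem KZ_add {k : ℕ} {p q : (E → Bool) → K} (hp : KZ src tgt d ε k p)
    (hq : KZ src tgt d ε k q) : KZ src tgt d ε k (fun z => p z + q z) := by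
  intro R hR
  have h1 : (fun z => kchi K R z * (p z + q z))
      = fun z => kchi K R z * p z + kchi K R z * q z := by
    funext z; ring
  rw [h1, kEt_add, hp R hR, hq R hR, add_zero]

theorem KZ_smul {k : ℕ} {p : (E → Bool) → K} (c : K) (hp : KZ src tgt d ε k p) :
    KZ src tgt d ε k (fun z => c * p z) := by
  intro R hR
  have h1 : (fun z => kchi K R z * (c * p z)) = fun z => c * (kchi K R z * p z) := by
    funext z; ring
  rw [h1, kEt_smul, hp R hR, mul_zero]

theorem KZ_sum {ι : Type} {k : ℕ} (s : Finset ι) (c : ι → K) (p : ι → (E → Bool) → K)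
    (h : ∀ i ∈ s, KZ src tgt d ε k (p i)) : KZ src tgt d ε k (fun z => ∑ i ∈ s, c i * p i z) := by
  intro R hR
  have h1 : (fun z => kchi K R z * ∑ i ∈ s, c i * p i z)
      = fun z => ∑ i ∈ s, c i * (kchi K R z * p i z) := by
    funext z
    rw [Finset.mul_sum]
    exact Finset.sum_congr rfl fun i _ => by ring
  rw [h1, kEt_sum]
  exact Finset.sum_eq_zero fun i hi => by rw [h i hi R hR, mul_zero]

/-- small tests suffice -/
theorem ktransfer (hx : Expd src tgt d) (hε : ∀ w, ε w * ε w = 1) {p : (E → Bool) → K} {k : ℕ}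
    (h2k : 2 * k ≤ d) (hdeg : KDg p k) (hz : KZ src tgt d ε k p) {k' : ℕ} (hk' : k' + k ≤ d) :
    KZ src tgt d ε k' p := by
  intro S hS
  have hform : ∀ S : Finset E, kEt src tgt d ε (fun z => kchi K S z * p z)
      = ∑ X ∈ (smallL src tgt d).filter (fun X => (symmDiff S (bd src tgt X)).card ≤ k),
        keps ε X * kW p (symmDiff S (bd src tgt X)) := by
    intro S
    unfold kEt
    rw [Finset.sum_filter]
    refine Finset.sum_congr rfl fun X _ => ?_
    rw [kW_chi_mul]
    split_ifs with h
    · rfl
    · rw [hdeg _ (by omega), mul_zero]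
  by_cases hex : ∃ X0 ∈ smallL src tgt d, (symmDiff S (bd src tgt X0)).card ≤ k
  · obtain ⟨X0, hX0, hc⟩ := hex
    set R : Finset E := symmDiff S (bd src tgt X0) with hR
    have hRz := hz R hc
    rw [hform R] at hRz
    rw [hform S]
    have hinv : ∀ X : Finset Wv, symmDiff X0 (symmDiff X0 X) = X := sd_sd X0
    have hRY : ∀ X : Finset Wv, symmDiff R (bd src tgt (symmDiff X0 X))
        = symmDiff S (bd src tgt X) := by
      intro X
      rw [hR, bd_symmDiff]
      ext e
      simp only [Finset.mem_symmDiff]
      tauto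
    have hbij : ∑ X ∈ (smallL src tgt d).filter
          (fun X => (symmDiff S (bd src tgt X)).card ≤ k),
          keps ε X * kW p (symmDiff S (bd src tgt X))
        = ∑ Y ∈ (smallL src tgt d).filter
          (fun Y => (symmDiff R (bd src tgt Y)).card ≤ k),
          keps ε X0 * (keps ε Y * kW p (symmDiff R (bd src tgt Y))) := by
      refine Finset.sum_nbij' (fun X => symmDiff X0 X) (fun X => symmDiff X0 X) ?_ ?_ ?_ ?_ ?_
      · intro X hX
        rw [Finset.mem_filter] at hX ⊢
        rw [hRY X]
        refine ⟨smallL_closed hx hX0 hX.1 ?_, hX.2⟩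
        have h3 : bd src tgt (symmDiff X0 X)
            = symmDiff (symmDiff S (bd src tgt X0)) (symmDiff S (bd src tgt X)) := by
          rw [bd_symmDiff]
          ext e
          simp only [Finset.mem_symmDiff]
          tauto
        rw [h3]
        have := card_symmDiff_le' (symmDiff S (bd src tgt X0)) (symmDiff S (bd src tgt X))
        have h4 := hX.2
        have h6 : (symmDiff S (bd src tgt X0)).card ≤ k := hc
        omega
      · intro Y hY
        rw [Finset.mem_filter] at hY ⊢
        have h5 := hRY (symmDiff X0 Y)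
        rw [hinv Y] at h5
        rw [← h5]
        refine ⟨smallL_closed hx hX0 hY.1 ?_, hY.2⟩
        have h3 : bd src tgt (symmDiff X0 Y)
            = symmDiff S (symmDiff R (bd src tgt Y)) := by
          rw [bd_symmDiff, hR]
          ext e
          simp only [Finset.mem_symmDiff]
          tauto
        rw [h3]
        have := card_symmDiff_le' S (symmDiff R (bd src tgt Y))
        have h4 := hY.2
        omega
      · intro X _; exact hinv X
      · intro X _; exact hinv X
      · intro X _
        rw [hRY X, keps_symmDiff hε]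
        linear_combination (-(keps ε X * kW p (symmDiff S (bd src tgt X)))) *
          keps_mul_self hε X0
    rw [hbij, ← Finset.mul_sum, hRz, mul_zero]
  · rw [hform S]
    refine Finset.sum_eq_zero fun X hX => ?_
    rw [Finset.mem_filter] at hX
    exact absurd ⟨X, hX.1, hX.2⟩ hex

/-- multiplication by a function of degree `D` -/
theorem KZ_mul (h2 : (2 : K) ≠ 0) {r p : (E → Bool) → K} {D k : ℕ} (hr : KDg r D)
    (hp : KZ src tgt d ε (k + D) p) : KZ src tgt d ε k (fun z => r z * p z) := by
  intro R hR
  have h1 : (2 : K) ^ Fintype.card E * kEt src tgt d ε (fun z => kchi K R z * (r z * p z))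
      = ∑ S : Finset E, kW r S * kEt src tgt d ε (fun z => kchi K (symmDiff R S) z * p z) := by
    rw [← kEt_smul, ← kEt_sum]
    congr 1
    funext z
    have e1 : (2 : K) ^ Fintype.card E * (kchi K R z * (r z * p z))
        = ((2 : K) ^ Fintype.card E * r z) * (kchi K R z * p z) := by ring
    rw [e1, ← kinversion, Finset.sum_mul]
    refine Finset.sum_congr rfl fun S _ => ?_
    rw [← kchi_mul]
    ring
  have h3 : ∑ S : Finset E, kW r S * kEt src tgt d ε (fun z => kchi K (symmDiff R S) z * p z)
      = 0 := by
    refine Finset.sum_eq_zero fun S _ => ?_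
    by_cases hS : S.card ≤ D
    · have h4 := card_symmDiff_le' R S
      rw [hp _ (by omega), mul_zero]
    · rw [hr S (by omega), zero_mul]
  rw [h3] at h1
  exact (mul_eq_zero.mp h1).resolve_left (pow_ne_zero _ h2)

/-- the pseudo-expectation of `1` -/
theorem kEt_one (hx : Expd src tgt d) :
    kEt src tgt d ε (fun _ => 1) = (2 : K) ^ Fintype.card E := by
  have h0 : (fun _ : E → Bool => (1 : K)) = kchi K ∅ := by
    funext z; exact (kchi_empty z).symm
  rw [h0]
  unfold kEt
  rw [Finset.sum_eq_single ∅]
  · rw [kW_chi, bd_empty, if_pos rfl]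
    simp [keps]
  · intro X hX hne
    rw [kW_chi, if_neg, mul_zero]
    intro h
    rw [mem_smallL] at hX
    exact hne (hx.conn X (by omega) h.symm)
  · intro h
    exfalso
    apply h
    rw [mem_smallL, bd_empty]
    simp

/-- `1` is not pseudo-equal to zero -/
theorem not_KZ_one (h2 : (2 : K) ≠ 0) (hx : Expd src tgt d) (k : ℕ) :
    ¬ KZ src tgt d ε k (fun _ => 1) := by
  intro h
  have h1 := h ∅ (by simp)
  simp only [kchi_empty, one_mul] at h1
  rw [kEt_one hx] at h1
  exact pow_ne_zero _ h2 h1

end Pool.Agent.H3.Alg
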