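import Mathlib
import Pool.Agent.H3.Ac.Mat
import Pool.Agent.H3.Alg.Four

set_option autoImplicit false
set_option linter.unusedSectionVars false

/-!
# Structured matchings

`H` is a graph with vertices `U`, edges `E` and a root `u0`. The points are the two ends of every edge and
one more point in the cluster of the root. For an assignment `a` of the edges and a set `Y` of vertices,
`Mt a Y` joins the ends of the edges with value `1` that touch `Y` and matches the other points of every
cluster of a vertex of `Y`, if their number is even.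
-/

namespace Pool.Agent.H3.Alg

open Finset Pool.Agent.H3.Frg Pool.Agent.H3.Ac

/-- the ends of the edges and one more point -/
abbrev VH (E : Type) : Type := (E × Bool) ⊕ Unit

variable {E U : Type} [Fintype E] [DecidableEq E] [Fintype U] [DecidableEq U]

/-- the cluster of a point -/
def clu (src tgt : E → U) (u0 : U) : VH E → U
  | Sum.inl (e, false) => src e
  | Sum.inl (e, true) => tgt e
  | Sum.inr _ => u0

/-- the point is an end of an edge with value `1` -/
def act (a : E → Bool) : VH E → Bool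
  | Sum.inl (e, _) => a e
  | Sum.inr _ => false

/-- the points of the cluster of `u` that are not ends of edges with value `1` -/
def Zs (src tgt : E → U) (u0 : U) (a : E → Bool) (u : U) : Finset (VH E) :=
  univ.filter fun x => clu src tgt u0 x = u ∧ act a x = false

/-- the edges that touch `Y` -/
def inc (src tgt : E → U) (Y : Finset U) : Finset E :=
  univ.filter fun e => src e ∈ Y ∨ tgt e ∈ Y

open scoped Classical in
/-- a matching that covers exactly `Z`, if there is one -/
noncomputable def pm {V : Type} [Fintype V] [DecidableEq V] (Z : Finset V) : Finset (Sym2 V) :=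
  if h : ∃ M : Finset (Sym2 V), IsM M ∧ cov M = Z then h.choose else ∅

/-- the edges with value `1` that touch `Y` -/
def crs (src tgt : E → U) (a : E → Bool) (Y : Finset U) : Finset (Sym2 (VH E)) :=
  (univ.filter fun e => a e = true ∧ (src e ∈ Y ∨ tgt e ∈ Y)).image
    fun e => s(Sum.inl (e, false), Sum.inl (e, true))

/-- the structured matching -/
noncomputable def Mt (src tgt : E → U) (u0 : U) (a : E → Bool) (Y : Finset U) :
    Finset (Sym2 (VH E)) :=
  (Y.biUnion fun u => pm (Zs src tgt u0 a u)) ∪ crs src tgt a Y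

section pmlem

variable {V : Type} [Fintype V] [DecidableEq V]

theorem exists_pm (n : ℕ) : ∀ Z : Finset V, Z.card = 2 * n →
    ∃ M : Finset (Sym2 V), IsM M ∧ cov M = Z := by
  induction n with
  | zero =>
    intro Z hZ
    refine ⟨∅, isM_empty, ?_⟩
    have h1 : Z = ∅ := by
      rw [← Finset.card_eq_zero]; omega
    rw [h1]
    ext v
    rw [mem_cov]
    simp
  | succ n ih =>
    intro Z hZ
    obtain ⟨x, hx⟩ : Z.Nonempty := by
      rw [← Finset.card_pos]; omega
    obtain ⟨y, hy⟩ : (Z.erase x).Nonempty := by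
      rw [← Finset.card_pos, Finset.card_erase_of_mem hx]; omega
    obtain ⟨M, hM, hc⟩ := ih ((Z.erase x).erase y) (by
      rw [Finset.card_erase_of_mem hy, Finset.card_erase_of_mem hx]; omega)
    rw [Finset.mem_erase] at hy
    have h1 := isM_insert hM (u := x) (v := y) (Ne.symm hy.1) (by rw [hc]; simp)
      (by rw [hc]; simp)
    refine ⟨insert s(x, y) M, h1.1, ?_⟩
    ext v
    rw [mem_cov]
    constructor
    · rintro ⟨e, he, hv⟩
      rcases Finset.mem_insert.1 he with rfl | he
      · rw [Sym2.mem_iff] at hv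
        rcases hv with rfl | rfl
        · exact hx
        · exact hy.2
      · have h2 : v ∈ cov M := mem_cov.2 ⟨e, he, hv⟩
        rw [hc] at h2
        exact Finset.mem_of_mem_erase (Finset.mem_of_mem_erase h2)
    · intro hv
      by_cases hvx : v = x
      · exact ⟨s(x, y), Finset.mem_insert_self _ _, by rw [hvx]; exact Sym2.mem_mk_left _ _⟩
      by_cases hvy : v = y
      · exact ⟨s(x, y), Finset.mem_insert_self _ _, by rw [hvy]; exact Sym2.mem_mk_right _ _⟩
      have h2 : v ∈ cov M := by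
        rw [hc, Finset.mem_erase, Finset.mem_erase]
        exact ⟨hvy, hvx, hv⟩
      obtain ⟨e, he, hve⟩ := mem_cov.1 h2
      exact ⟨e, Finset.mem_insert_of_mem he, hve⟩

theorem pm_isM (Z : Finset V) : IsM (pm Z) := by
  unfold pm
  split_ifs with h
  · exact h.choose_spec.1
  · exact isM_empty

theorem pm_cov_sub (Z : Finset V) : cov (pm Z) ⊆ Z := by
  unfold pm
  split_ifs with h
  · rw [h.choose_spec.2]
  · intro v hv
    obtain ⟨e, he, _⟩ := mem_cov.1 hv
    exact absurd he (Finset.notMem_empty _)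

theorem pm_cov {Z : Finset V} (hZ : Even Z.card) : cov (pm Z) = Z := by
  obtain ⟨n, hn⟩ := hZ
  have h : ∃ M : Finset (Sym2 V), IsM M ∧ cov M = Z := exists_pm n Z (by omega)
  unfold pm
  rw [dif_pos h]
  exact h.choose_spec.2

end pmlem

variable {src tgt : E → U} {u0 : U}

theorem mem_Zs {a : E → Bool} {u : U} {x : VH E} :
    x ∈ Zs src tgt u0 a u ↔ clu src tgt u0 x = u ∧ act a x = false := by
  simp [Zs]

theorem mem_inc {Y : Finset U} {e : E} : e ∈ inc src tgt Y ↔ src e ∈ Y ∨ tgt e ∈ Y := by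
  simp [inc]

theorem inc_mono {Y Y' : Finset U} (h : Y ⊆ Y') : inc src tgt Y ⊆ inc src tgt Y' := by
  intro e he
  rw [mem_inc] at he ⊢
  rcases he with h1 | h1
  · exact Or.inl (h h1)
  · exact Or.inr (h h1)

theorem bd_sub_inc {Y : Finset U} {u : U} (hu : u ∈ Y) : bd src tgt {u} ⊆ inc src tgt Y := by
  intro e he
  rw [mem_bd, Finset.mem_singleton, Finset.mem_singleton] at he
  rw [mem_inc]
  by_cases h1 : src e = u
  · exact Or.inl (by rw [h1]; exact hu)
  · by_cases h2 : tgt e = u
    · exact Or.inr (by rw [h2]; exact hu)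
    · exact absurd ⟨fun h => absurd h h1, fun h => absurd h h2⟩ he

theorem inc_card_le {Δ : ℕ} (hloop : ∀ e, src e ≠ tgt e)
    (hΔ : ∀ u, (bd src tgt {u}).card ≤ Δ) (Y : Finset U) :
    (inc src tgt Y).card ≤ Δ * Y.card := by
  have h1 : inc src tgt Y ⊆ Y.biUnion fun u => bd src tgt {u} := by
    intro e he
    rw [mem_inc] at he
    rw [Finset.mem_biUnion]
    rcases he with h | h
    · refine ⟨src e, h, ?_⟩
      rw [mem_bd, Finset.mem_singleton, Finset.mem_singleton]
      intro h2
      exact hloop e (h2.1 rfl).symm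
    · refine ⟨tgt e, h, ?_⟩
      rw [mem_bd, Finset.mem_singleton, Finset.mem_singleton]
      intro h2
      exact hloop e (h2.2 rfl)
  refine (Finset.card_le_card h1).trans (Finset.card_biUnion_le.trans ?_)
  refine (Finset.sum_le_sum fun u _ => hΔ u).trans ?_
  rw [Finset.sum_const, smul_eq_mul, mul_comm]

theorem mem_crs {a : E → Bool} {Y : Finset U} {f : Sym2 (VH E)} :
    f ∈ crs src tgt a Y ↔ ∃ e, a e = true ∧ (src e ∈ Y ∨ tgt e ∈ Y) ∧
      f = s(Sum.inl (e, false), Sum.inl (e, true)) := by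
  unfold crs
  rw [Finset.mem_image]
  constructor
  · rintro ⟨e, he, rfl⟩
    rw [Finset.mem_filter] at he
    exact ⟨e, he.2.1, he.2.2, rfl⟩
  · rintro ⟨e, h1, h2, rfl⟩
    exact ⟨e, by rw [Finset.mem_filter]; exact ⟨Finset.mem_univ _, h1, h2⟩, rfl⟩

theorem mem_Mt {a : E → Bool} {Y : Finset U} {f : Sym2 (VH E)} :
    f ∈ Mt src tgt u0 a Y ↔ (∃ u ∈ Y, f ∈ pm (Zs src tgt u0 a u)) ∨ f ∈ crs src tgt a Y := by
  unfold Mt
  rw [Finset.mem_union, Finset.mem_biUnion]

theorem mem_pm_Zs {a : E → Bool} {u : U} {f : Sym2 (VH E)} (hf : f ∈ pm (Zs src tgt u0 a u))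
    {x : VH E} (hx : x ∈ f) : clu src tgt u0 x = u ∧ act a x = false :=
  mem_Zs.1 (pm_cov_sub _ (mem_cov.2 ⟨f, hf, hx⟩))

theorem mem_crs_end {a : E → Bool} {Y : Finset U} {f : Sym2 (VH E)} (hf : f ∈ crs src tgt a Y)
    {x : VH E} (hx : x ∈ f) : ∃ e b, x = Sum.inl (e, b) ∧ a e = true ∧
      (src e ∈ Y ∨ tgt e ∈ Y) ∧ f = s(Sum.inl (e, false), Sum.inl (e, true)) := by
  obtain ⟨e, h1, h2, rfl⟩ := mem_crs.1 hf
  rw [Sym2.mem_iff] at hx
  rcases hx with rfl | rfl
  · exact ⟨e, false, rfl, h1, h2, rfl⟩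
  · exact ⟨e, true, rfl, h1, h2, rfl⟩

theorem isM_Mt (a : E → Bool) (Y : Finset U) : IsM (Mt src tgt u0 a Y) := by
  constructor
  · intro f hf
    rcases mem_Mt.1 hf with ⟨u, _, h⟩ | h
    · exact (pm_isM _).1 f h
    · obtain ⟨e, _, _, rfl⟩ := mem_crs.1 h
      rw [Sym2.mk_isDiag_iff]
      simp
  · intro f hf g hg x hxf hxg
    rcases mem_Mt.1 hf with ⟨u, _, h⟩ | h
    · obtain ⟨c1, c2⟩ := mem_pm_Zs h hxf
      rcases mem_Mt.1 hg with ⟨u', _, h'⟩ | h'
      · obtain ⟨c3, _⟩ := mem_pm_Zs h' hxg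
        rw [← c3, c1] at h'
        exact (pm_isM _).2 f h g h' x hxf hxg
      · obtain ⟨e, b, rfl, h1, _, _⟩ := mem_crs_end h' hxg
        rw [act, h1] at c2
        exact absurd c2 (by simp)
    · obtain ⟨e, b, rfl, h1, _, rfl⟩ := mem_crs_end h hxf
      rcases mem_Mt.1 hg with ⟨u', _, h'⟩ | h'
      · obtain ⟨_, c2⟩ := mem_pm_Zs h' hxg
        rw [act, h1] at c2
        exact absurd c2 (by simp)
      · obtain ⟨e', b', h3, _, _, rfl⟩ := mem_crs_end h' hxg
        have h4 : e = e' := by
          have := Sum.inl.inj h3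
          exact (Prod.mk.inj this).1
        rw [h4]

theorem Mt_mono (a : E → Bool) {Y Y' : Finset U} (h : Y ⊆ Y') :
    Mt src tgt u0 a Y ⊆ Mt src tgt u0 a Y' := by
  intro f hf
  rcases mem_Mt.1 hf with ⟨u, hu, h1⟩ | h1
  · exact mem_Mt.2 (Or.inl ⟨u, h hu, h1⟩)
  · obtain ⟨e, h2, h3, h4⟩ := mem_crs.1 h1
    refine mem_Mt.2 (Or.inr (mem_crs.2 ⟨e, h2, ?_, h4⟩))
    rcases h3 with h3 | h3
    · exact Or.inl (h h3)
    · exact Or.inr (h h3)

theorem cov_Mt {a : E → Bool} {Y : Finset U} {x : VH E} (hx : clu src tgt u0 x ∈ Y)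
    (hev : Even (Zs src tgt u0 a (clu src tgt u0 x)).card) : x ∈ cov (Mt src tgt u0 a Y) := by
  cases hact : act a x with
  | false =>
    have h1 : x ∈ cov (pm (Zs src tgt u0 a (clu src tgt u0 x))) := by
      rw [pm_cov hev, mem_Zs]
      exact ⟨rfl, hact⟩
    obtain ⟨f, hf, hxf⟩ := mem_cov.1 h1
    exact mem_cov.2 ⟨f, mem_Mt.2 (Or.inl ⟨_, hx, hf⟩), hxf⟩
  | true =>
    rcases x with ⟨e, b⟩ | u
    · refine mem_cov.2 ⟨s(Sum.inl (e, false), Sum.inl (e, true)), mem_Mt.2 (Or.inr
        (mem_crs.2 ⟨e, hact, ?_, rfl⟩)), ?_⟩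
      · cases b
        · exact Or.inl hx
        · exact Or.inr hx
      · cases b
        · exact Sym2.mem_mk_left _ _
        · exact Sym2.mem_mk_right _ _
    · exact absurd hact (by simp [act])

theorem card_Mt (a : E → Bool) (Y : Finset U) :
    (Mt src tgt u0 a Y).card ≤ (inc src tgt Y).card := by
  have h1 := card_cov (isM_Mt (src := src) (tgt := tgt) (u0 := u0) a Y)
  have h2 : cov (Mt src tgt u0 a Y) ⊆
      ((inc src tgt Y ×ˢ (univ : Finset Bool)).image Sum.inl) ∪ {Sum.inr ()} := by
    intro x hx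
    rw [Finset.mem_union, Finset.mem_image, Finset.mem_singleton]
    rcases x with ⟨e, b⟩ | u
    · left
      refine ⟨(e, b), ?_, rfl⟩
      rw [Finset.mem_product, mem_inc]
      refine ⟨?_, Finset.mem_univ _⟩
      obtain ⟨f, hf, hxf⟩ := mem_cov.1 hx
      rcases mem_Mt.1 hf with ⟨u, hu, h⟩ | h
      · obtain ⟨c1, _⟩ := mem_pm_Zs h hxf
        cases b
        · left; show src e ∈ Y; rw [show src e = u from c1]; exact hu
        · right; show tgt e ∈ Y; rw [show tgt e = u from c1]; exact hu
      · obtain ⟨e', b', h3, _, h4, _⟩ := mem_crs_end h hxf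
        have h5 : e = e' := (Prod.mk.inj (Sum.inl.inj h3)).1
        rw [h5]; exact h4
    · right; rfl
  have h3 := (Finset.card_le_card h2).trans (Finset.card_union_le _ _)
  have h4 : ((inc src tgt Y ×ˢ (univ : Finset Bool)).image
      (Sum.inl : E × Bool → VH E)).card ≤ (inc src tgt Y).card * 2 := by
    refine Finset.card_image_le.trans ?_
    rw [Finset.card_product]
    simp
  rw [Finset.card_singleton] at h3
  omega

theorem Zs_congr {a a' : E → Bool} {u : U} (h : ∀ e ∈ inc src tgt {u}, a e = a' e) :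
    Zs src tgt u0 a u = Zs src tgt u0 a' u := by
  ext x
  rw [mem_Zs, mem_Zs]
  refine and_congr_right fun hx => ?_
  rcases x with ⟨e, b⟩ | v
  · have h1 : e ∈ inc src tgt {u} := by
      rw [mem_inc, Finset.mem_singleton, Finset.mem_singleton]
      cases b
      · exact Or.inl hx
      · exact Or.inr hx
    simp only [act]
    rw [h e h1]
  · simp [act]

theorem Mt_congr {a a' : E → Bool} {Y : Finset U} (h : ∀ e ∈ inc src tgt Y, a e = a' e) :
    Mt src tgt u0 a Y = Mt src tgt u0 a' Y := by
  have h1 : ∀ u ∈ Y, Zs src tgt u0 a u = Zs src tgt u0 a' u := fun u hu =>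
    Zs_congr fun e he => h e (inc_mono (Finset.singleton_subset_iff.2 hu) he)
  have h2 : crs src tgt a Y = crs src tgt a' Y := by
    ext f
    rw [mem_crs, mem_crs]
    constructor
    · rintro ⟨e, c1, c2, c3⟩
      exact ⟨e, by rw [← h e (mem_inc.2 c2)]; exact c1, c2, c3⟩
    · rintro ⟨e, c1, c2, c3⟩
      exact ⟨e, by rw [h e (mem_inc.2 c2)]; exact c1, c2, c3⟩
  unfold Mt
  rw [h2]
  congr 1
  refine Finset.biUnion_congr rfl fun u hu => ?_
  rw [h1 u hu]

variable {K : Type} [Field K]

/-- the signs of the constraints -/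
def sgn (K : Type) [Field K] (src tgt : E → U) (u0 : U) (u : U) : K :=
  (-1) ^ ((bd src tgt {u}).card + if u = u0 then 1 else 0)

theorem sgn_mul_self (u : U) : sgn K src tgt u0 u * sgn K src tgt u0 u = 1 := by
  unfold sgn
  rw [← mul_pow]
  simp

theorem pow_card_Zs (hloop : ∀ e, src e ≠ tgt e) (a : E → Bool) (u : U) :
    (-1 : K) ^ (Zs src tgt u0 a u).card
      = sgn K src tgt u0 u * kchi K (bd src tgt {u}) a := by
  have h1 : (-1 : K) ^ (Zs src tgt u0 a u).card
      = ∏ x : VH E, (if clu src tgt u0 x = u ∧ act a x = false then (-1 : K) else 1) := by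
    unfold Zs
    rw [← Finset.prod_filter, Finset.prod_const]
  rw [h1, Fintype.prod_sum_type, Fintype.prod_prod_type]
  have h2 : ∀ e : E, ∏ b : Bool,
      (if clu src tgt u0 (Sum.inl (e, b)) = u ∧ act a (Sum.inl (e, b)) = false
        then (-1 : K) else 1)
      = if e ∈ bd src tgt {u} then (-1) * ksg K (a e) else 1 := by
    intro e
    rw [Fintype.prod_bool]
    have h3 : e ∈ bd src tgt {u} ↔ (src e = u ∨ tgt e = u) := by
      rw [mem_bd, Finset.mem_singleton, Finset.mem_singleton]
      have := hloop e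
      constructor
      · intro h
        by_contra h4
        push Not at h4
        exact h ⟨fun h5 => absurd h5 h4.1, fun h5 => absurd h5 h4.2⟩
      · rintro (h | h) h4
        · exact this (h.trans (h4.1 h).symm)
        · exact this ((h4.2 h).trans h.symm)
    simp only [clu, act]
    by_cases hs : src e = u <;> by_cases ht : tgt e = u
    · exact absurd (hs.trans ht.symm) (hloop e)
    · rw [if_pos (h3.2 (Or.inl hs))]
      rcases Bool.eq_false_or_eq_true (a e) with hae | hae <;> simp [hs, ht, ksg, hae]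
    · rw [if_pos (h3.2 (Or.inr ht))]
      rcases Bool.eq_false_or_eq_true (a e) with hae | hae <;> simp [hs, ht, ksg, hae]
    · rw [if_neg (fun h => (h3.1 h).elim hs ht)]
      simp [hs, ht]
  rw [Finset.prod_congr rfl fun e _ => h2 e, Finset.prod_ite_mem, Finset.univ_inter,
    Finset.prod_mul_distrib, Finset.prod_const]
  have h4 : ∏ x : Unit, (if clu src tgt u0 (Sum.inr x) = u ∧ act a (Sum.inr x) = false
      then (-1 : K) else 1) = (-1) ^ (if u = u0 then 1 else 0) := by
    rw [Fintype.prod_unique]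
    simp only [clu, act]
    by_cases h : u = u0
    · simp [h]
    · simp [h, Ne.symm h]
  rw [h4]
  unfold sgn kchi
  rw [pow_add]
  ring

/-- a constraint holds iff the number of points is even -/
theorem sat_iff (h2 : (2 : K) ≠ 0) (hloop : ∀ e, src e ≠ tgt e) (a : E → Bool) (u : U) :
    kchi K (bd src tgt {u}) a = sgn K src tgt u0 u ↔ Even (Zs src tgt u0 a u).card := by
  have h1 := pow_card_Zs (K := K) (u0 := u0) hloop a u
  constructor
  · intro h
    rw [h, sgn_mul_self] at h1
    by_contra hodd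
    rw [Nat.not_even_iff_odd] at hodd
    rw [hodd.neg_one_pow] at h1
    apply h2
    linear_combination (-1 : K) * h1
  · intro h
    rw [h.neg_one_pow] at h1
    have h3 := sgn_mul_self (K := K) (src := src) (tgt := tgt) (u0 := u0) u
    linear_combination (- kchi K (bd src tgt {u}) a) * h3 + (- sgn K src tgt u0 u) * h1

end Pool.Agent.H3.Alg
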