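import Mathlib
import Pool.Agent.H3.Alg.Mtc

set_option autoImplicit false
set_option linter.unusedSectionVars false

/-!
# Self-consistent queries and local functions
-/

namespace Pool.Agent.H3.Alg

open Finset Pool.Agent.H3.Frg Pool.Agent.H3.Ac

variable {E U : Type} [Fintype E] [DecidableEq E] [Fintype U] [DecidableEq U]

/-- the queried set is determined by the values of the edges that touch it -/
def SC (src tgt : E → U) (Y : (E → Bool) → Finset U) : Prop :=
  ∀ a a', (∀ e ∈ inc src tgt (Y a), a e = a' e) → Y a' = Y a

/-- `F` is determined by the values of the queried edges -/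
def Loc {β : Type} (src tgt : E → U) (Y : (E → Bool) → Finset U) (F : (E → Bool) → β) : Prop :=
  ∀ a a', (∀ e ∈ inc src tgt (Y a), a e = a' e) → F a' = F a

variable {src tgt : E → U} {K : Type} [Field K]

theorem SC_union {Y Y' : (E → Bool) → Finset U} (h : SC src tgt Y) (h' : SC src tgt Y') :
    SC src tgt (fun a => Y a ∪ Y' a) := by
  intro a a' hh
  show Y a' ∪ Y' a' = Y a ∪ Y' a
  rw [h a a' (fun e he => hh e (inc_mono Finset.subset_union_left he)),
    h' a a' (fun e he => hh e (inc_mono Finset.subset_union_right he))]

theorem Loc_mono {β : Type} {Y Y' : (E → Bool) → Finset U} {F : (E → Bool) → β}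
    (h : Loc src tgt Y F) (hs : ∀ a, Y a ⊆ Y' a) : Loc src tgt Y' F :=
  fun a a' hh => h a a' fun e he => hh e (inc_mono (hs a) he)

/-- flip one edge -/
def flp (a : E → Bool) (e : E) : E → Bool := Function.update a e (!a e)

theorem kchi_flp {T : Finset E} {a : E → Bool} {e : E} (he : e ∈ T) :
    kchi K T (flp a e) = - kchi K T a := by
  unfold kchi
  rw [← Finset.mul_prod_erase T _ he, ← Finset.mul_prod_erase T _ he]
  have h1 : ∏ x ∈ T.erase e, ksg K (flp a e x) = ∏ x ∈ T.erase e, ksg K (a x) := by
    refine Finset.prod_congr rfl fun x hx => ?_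
    unfold flp
    rw [Function.update_of_ne (Finset.ne_of_mem_erase hx)]
  rw [h1]
  have h2 : ksg K (flp a e e) = - ksg K (a e) := by
    unfold flp
    rw [Function.update_self]
    cases a e <;> simp [ksg]
  rw [h2, neg_mul]

/-- local functions have small degree -/
theorem kdg_loc {Y : (E → Bool) → Finset U} {F : (E → Bool) → K} {L : ℕ} (hY : SC src tgt Y)
    (hF : Loc src tgt Y F) (hL : ∀ a, (inc src tgt (Y a)).card ≤ L) : KDg F L := by
  classical
  intro T hT
  have hne : ∀ a, (T \ inc src tgt (Y a)).Nonempty := by
    intro a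
    rw [Finset.sdiff_nonempty]
    intro h
    have := Finset.card_le_card h
    have := hL a
    omega
  have : Nonempty E := ⟨(hne (fun _ => false)).choose⟩
  choose! pick hpick using fun (B : Finset E) (h : B.Nonempty) => h
  set g : (E → Bool) → E := fun a => pick (T \ inc src tgt (Y a)) with hg
  have hgT : ∀ a, g a ∈ T ∧ g a ∉ inc src tgt (Y a) := by
    intro a
    have := hpick _ (hne a)
    rw [Finset.mem_sdiff] at this
    exact this
  have hag : ∀ a, ∀ e ∈ inc src tgt (Y a), a e = flp a (g a) e := by
    intro a e he
    unfold flp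
    rw [Function.update_of_ne]
    rintro rfl
    exact (hgT a).2 he
  have hYf : ∀ a, Y (flp a (g a)) = Y a := fun a => hY a _ (hag a)
  have hgf : ∀ a, g (flp a (g a)) = g a := by
    intro a
    simp only [hg]
    rw [show Y (flp a (pick (T \ inc src tgt (Y a)))) = Y a from hYf a]
  unfold kW
  refine Finset.sum_involution (fun a _ => flp a (g a)) ?_ ?_ ?_ ?_
  · intro a _
    rw [hF a _ (hag a), kchi_flp (hgT a).1]
    ring
  · intro a _ _ h
    have h1 := congrFun h (g a)
    unfold flp at h1
    rw [Function.update_self] at h1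
    cases hb : a (g a) <;> rw [hb] at h1 <;> simp at h1
  · intro a _
    exact Finset.mem_univ _
  · intro a _
    show flp (flp a (g a)) (g (flp a (g a))) = a
    rw [hgf a]
    funext e
    unfold flp
    by_cases h : e = g a
    · rw [h, Function.update_self, Function.update_self, Bool.not_not]
    · rw [Function.update_of_ne h, Function.update_of_ne h]

/-- the shift by a small set -/
theorem kEt_shift {d : ℕ} {ε : U → K} (hx : Expd src tgt d) (hε : ∀ w, ε w * ε w = 1)
    {X0 : Finset U} (hX0 : X0 ∈ smallL src tgt d) {p : (E → Bool) → K} {D : ℕ} (hp : KDg p D)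
    (hd : D + (bd src tgt X0).card ≤ d) :
    kEt src tgt d ε (fun z => kchi K (bd src tgt X0) z * p z)
      = keps ε X0 * kEt src tgt d ε p := by
  have h1 : kEt src tgt d ε (fun z => kchi K (bd src tgt X0) z * p z)
      = ∑ X ∈ (smallL src tgt d).filter
          (fun X => (bd src tgt (symmDiff X0 X)).card ≤ D),
        keps ε X * kW p (bd src tgt (symmDiff X0 X)) := by
    unfold kEt
    rw [Finset.sum_filter]
    refine Finset.sum_congr rfl fun X _ => ?_
    rw [kW_chi_mul, ← bd_symmDiff]
    split_ifs with h
    · rfl
    · rw [hp _ (by omega), mul_zero]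
  have h2 : kEt src tgt d ε p
      = ∑ X ∈ (smallL src tgt d).filter (fun X => (bd src tgt X).card ≤ D),
        keps ε X * kW p (bd src tgt X) := by
    unfold kEt
    rw [Finset.sum_filter]
    refine Finset.sum_congr rfl fun X _ => ?_
    split_ifs with h
    · rfl
    · rw [hp _ (by omega), mul_zero]
  rw [h1, h2, Finset.mul_sum]
  have hinv : ∀ X : Finset U, symmDiff X0 (symmDiff X0 X) = X := sd_sd X0
  refine Finset.sum_nbij' (fun X => symmDiff X0 X) (fun X => symmDiff X0 X) ?_ ?_ ?_ ?_ ?_
  · intro X hX
    rw [Finset.mem_filter] at hX ⊢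
    refine ⟨smallL_closed hx hX0 hX.1 ?_, hX.2⟩
    have := hX.2
    omega
  · intro X hX
    rw [Finset.mem_filter] at hX ⊢
    rw [hinv X]
    refine ⟨smallL_closed hx hX0 hX.1 ?_, hX.2⟩
    rw [bd_symmDiff]
    have h3 := card_symmDiff_le' (bd src tgt X0) (bd src tgt X)
    have h4 := hX.2
    omega
  · intro X _; exact hinv X
  · intro X _; exact hinv X
  · intro X _
    rw [keps_symmDiff hε]
    linear_combination (-(keps ε X * kW p (bd src tgt (symmDiff X0 X)))) * keps_mul_self hε X0

theorem singleton_small {d : ℕ} (hx : Expd src tgt d) {u : U}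
    (hd : (bd src tgt {u}).card ≤ d) : ({u} : Finset U) ∈ smallL src tgt d := by
  rw [mem_smallL, Finset.card_singleton]
  exact ⟨by have := hx.three; omega, hd⟩

theorem KDg_chi_mul (h2 : (2 : K) ≠ 0) {p : (E → Bool) → K} {D k : ℕ} (R : Finset E)
    (hR : R.card ≤ k) (hp : KDg p D) : KDg (fun z => kchi K R z * p z) (D + k) :=
  KDg_mono (KDg_mul h2 (KDg_chi R) hp) (by omega)

/-- local functions that vanish where the constraints hold are pseudo-equal to zero -/
theorem loc_zero (h2 : (2 : K) ≠ 0) {d Δ L k : ℕ} {ε : U → K} (hx : Expd src tgt d)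
    (hε : ∀ w, ε w * ε w = 1) (hΔ : ∀ u, (bd src tgt {u}).card ≤ Δ)
    {Y : (E → Bool) → Finset U} {F : (E → Bool) → K} (hY : SC src tgt Y)
    (hF : Loc src tgt Y F) (hL : ∀ a, (inc src tgt (Y a)).card ≤ L) (hd : L + k + Δ ≤ d)
    (h0 : ∀ a, (∀ u ∈ Y a, kchi K (bd src tgt {u}) a = ε u) → F a = 0) :
    KZ src tgt d ε k F := by
  classical
  -- an unsatisfied vertex
  have : Nonempty U := Fintype.card_pos_iff.1 (by have := hx.three; omega)
  choose! pick hpick using fun (B : Finset U) (h : B.Nonempty) => h
  set Un : (E → Bool) → Finset U :=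
    fun a => (Y a).filter fun u => kchi K (bd src tgt {u}) a ≠ ε u with hUn
  have hchi : ∀ a a' : E → Bool, (∀ e ∈ inc src tgt (Y a), a e = a' e) → ∀ u ∈ Y a,
      kchi K (bd src tgt {u}) a' = kchi K (bd src tgt {u}) a := by
    intro a a' h u hu
    unfold kchi
    refine Finset.prod_congr rfl fun e he => ?_
    rw [h e (bd_sub_inc hu he)]
  have hUnl : Loc src tgt Y Un := by
    intro a a' h
    simp only [hUn]
    rw [hY a a' h]
    refine Finset.filter_congr fun u hu => ?_
    rw [hchi a a' h u hu]
  set q : (E → Bool) → Option U := fun a => if (Un a).Nonempty then some (pick (Un a)) else none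
    with hq
  have hql : Loc src tgt Y q := by
    intro a a' h
    simp only [hq]
    rw [hUnl a a' h]
  have hqn : ∀ a, q a = none → F a = 0 := by
    intro a h
    apply h0
    intro u hu
    by_contra h3
    have h4 : (Un a).Nonempty := ⟨u, by
      simp only [hUn]
      rw [Finset.mem_filter]
      exact ⟨hu, h3⟩⟩
    simp only [hq] at h
    rw [if_pos h4] at h
    exact absurd h (by simp)
  have hqs : ∀ a u, q a = some u → u ∈ Y a ∧ kchi K (bd src tgt {u}) a = - ε u := by
    intro a u h
    simp only [hq] at h
    split_ifs at h with h4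
    have h5 := hpick _ h4
    rw [Option.some.inj h] at h5
    simp only [hUn] at h5
    rw [Finset.mem_filter] at h5
    refine ⟨h5.1, ?_⟩
    have h6 := kchi_mul_self (K := K) (bd src tgt {u}) a
    have h7 := hε u
    have h8 : (kchi K (bd src tgt {u}) a - ε u) * (kchi K (bd src tgt {u}) a + ε u) = 0 := by
      linear_combination h6 - h7
    rcases mul_eq_zero.1 h8 with h9 | h9
    · exact absurd (sub_eq_zero.1 h9) h5.2
    · linear_combination h9
  have hsum : F = fun a => ∑ u : U, (1 : K) * (if q a = some u then F a else 0) := by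
    funext a
    simp only [one_mul]
    cases hqa : q a with
    | none =>
      rw [hqn a hqa]
      simp
    | some u =>
      rw [Finset.sum_eq_single u]
      · simp
      · intro v _ hv
        rw [if_neg]
        intro h
        exact hv (Option.some.inj h).symm
      · intro h
        exact absurd (Finset.mem_univ u) h
  rw [hsum]
  refine KZ_sum _ _ _ fun u _ => ?_
  have hloc : Loc src tgt Y (fun a => if q a = some u then F a else (0 : K)) := by
    intro a a' h
    show (if q a' = some u then F a' else 0) = if q a = some u then F a else 0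
    rw [hql a a' h, hF a a' h]
  have hdeg := kdg_loc hY hloc hL
  have hflip : ∀ a, (if q a = some u then F a else (0 : K))
      = (- ε u) * (kchi K (bd src tgt {u}) a * (if q a = some u then F a else (0 : K))) := by
    intro a
    split_ifs with h
    · rw [(hqs a u h).2]
      linear_combination (- F a) * hε u
    · simp
  intro R hR
  have hs := singleton_small hx (u := u) (by have := hΔ u; omega)
  have h3 := kEt_shift hx hε hs (KDg_chi_mul h2 R hR hdeg) (by
    have := hΔ u
    omega)
  have h4 : kEt src tgt d ε (fun z => kchi K R z * (if q z = some u then F z else (0 : K)))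
      = (- ε u) * kEt src tgt d ε (fun z => kchi K (bd src tgt {u}) z *
        (kchi K R z * (if q z = some u then F z else (0 : K)))) := by
    rw [← kEt_smul]
    congr 1
    funext z
    conv_lhs => rw [hflip z]
    ring
  rw [h3] at h4
  have h5 : keps ε ({u} : Finset U) = ε u := by simp [keps]
  rw [h5] at h4
  have h6 : (2 : K) * kEt src tgt d ε
      (fun z => kchi K R z * (if q z = some u then F z else (0 : K))) = 0 := by
    linear_combination h4 - (kEt src tgt d ε
      (fun z => kchi K R z * (if q z = some u then F z else (0 : K)))) * hε u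
  exact (mul_eq_zero.1 h6).resolve_left h2

end Pool.Agent.H3.Alg
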