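import Mathlib
import Pool.Agent.H3.Alg.Loc
import Pool.Agent.H3.Ac.Snd

set_option autoImplicit false
set_option linter.unusedSectionVars false

/-!
# Labels

For a three-valued function `f` of matchings of the points of `H` and an assignment `a` of the edges, the
queries: `w + 1` times the clusters that are touched by a witness of the value `true`, with at most `w`
edges, that is compatible with the structured matching of the queried set. The label is `true` if there is
such a witness at the end.
-/

namespace Pool.Agent.H3.Alg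

open Finset Pool.Agent.H3.Frg Pool.Agent.H3.Ac

variable {E U : Type} [Fintype E] [DecidableEq E] [Fintype U] [DecidableEq U]

/-- `M` is compatible with a small witness of the value `true` -/
def HasT (f : Finset (Sym2 (VH E)) → Option Bool) (w : ℕ) (M : Finset (Sym2 (VH E))) : Prop :=
  ∃ t : Finset (Sym2 (VH E)), t.card ≤ w ∧ IsM (t ∪ M) ∧ f t = some true

open scoped Classical in
/-- a witness -/
noncomputable def tc (f : Finset (Sym2 (VH E)) → Option Bool) (w : ℕ) (M : Finset (Sym2 (VH E))) :
    Finset (Sym2 (VH E)) := if h : HasT f w M then h.choose else ∅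

/-- the queried set after `i` rounds -/
noncomputable def Yn (src tgt : E → U) (u0 : U) (f : Finset (Sym2 (VH E)) → Option Bool) (w : ℕ)
    (a : E → Bool) : ℕ → Finset U
  | 0 => ∅
  | i + 1 => Yn src tgt u0 f w a i ∪
      (cov (tc f w (Mt src tgt u0 a (Yn src tgt u0 f w a i)))).image (clu src tgt u0)

/-- the queried set -/
noncomputable def YA (src tgt : E → U) (u0 : U) (f : Finset (Sym2 (VH E)) → Option Bool) (w : ℕ)
    (a : E → Bool) : Finset U := Yn src tgt u0 f w a (w + 1)

open scoped Classical in
/-- the label -/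
noncomputable def lab (src tgt : E → U) (u0 : U) (f : Finset (Sym2 (VH E)) → Option Bool) (w : ℕ)
    (a : E → Bool) : Bool := decide (HasT f w (Mt src tgt u0 a (YA src tgt u0 f w a)))

variable {src tgt : E → U} {u0 : U} {f : Finset (Sym2 (VH E)) → Option Bool} {w : ℕ}

theorem tc_spec {M : Finset (Sym2 (VH E))} (h : HasT f w M) :
    (tc f w M).card ≤ w ∧ IsM (tc f w M ∪ M) ∧ f (tc f w M) = some true := by
  unfold tc
  rw [dif_pos h]
  exact h.choose_spec

theorem tc_card (M : Finset (Sym2 (VH E))) : (cov (tc f w M)).card ≤ 2 * w := by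
  by_cases h : HasT f w M
  · obtain ⟨h1, h2, _⟩ := tc_spec h
    rw [card_cov (isM_sub h2 Finset.subset_union_left)]
    omega
  · unfold tc
    rw [dif_neg h]
    have : cov (∅ : Finset (Sym2 (VH E))) = ∅ := by
      ext v; rw [mem_cov]; simp
    rw [this]
    simp

theorem Yn_card (a : E → Bool) (i : ℕ) : (Yn src tgt u0 f w a i).card ≤ 2 * w * i := by
  induction i with
  | zero => simp [Yn]
  | succ i ih =>
    refine (Finset.card_union_le _ _).trans ?_
    have h1 := (Finset.card_image_le (s := cov (tc f w (Mt src tgt u0 a (Yn src tgt u0 f w a i))))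
      (f := clu src tgt u0)).trans (tc_card _)
    rw [Nat.mul_succ]
    omega

theorem YA_card (a : E → Bool) : (YA src tgt u0 f w a).card ≤ 2 * w * (w + 1) := Yn_card a _

theorem Yn_SC (i : ℕ) : SC src tgt (fun a => Yn src tgt u0 f w a i) := by
  induction i with
  | zero => intro a a' _; rfl
  | succ i ih =>
    intro a a' h
    have h1 : Yn src tgt u0 f w a' i = Yn src tgt u0 f w a i :=
      ih a a' fun e he => h e (inc_mono (by
        show Yn src tgt u0 f w a i ⊆ Yn src tgt u0 f w a (i + 1)
        exact Finset.subset_union_left) he)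
    have h2 : Mt src tgt u0 a (Yn src tgt u0 f w a i) = Mt src tgt u0 a' (Yn src tgt u0 f w a i) :=
      Mt_congr fun e he => h e (inc_mono (by
        show Yn src tgt u0 f w a i ⊆ Yn src tgt u0 f w a (i + 1)
        exact Finset.subset_union_left) he)
    show Yn src tgt u0 f w a' i ∪
      (cov (tc f w (Mt src tgt u0 a' (Yn src tgt u0 f w a' i)))).image (clu src tgt u0) =
      Yn src tgt u0 f w a i ∪
      (cov (tc f w (Mt src tgt u0 a (Yn src tgt u0 f w a i)))).image (clu src tgt u0)
    rw [h1, h2]

theorem YA_SC : SC src tgt (YA src tgt u0 f w) := Yn_SC (w + 1)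

theorem lab_Loc : Loc src tgt (YA src tgt u0 f w) (lab src tgt u0 f w) := by
  intro a a' h
  have h1 := YA_SC a a' h
  have h2 := Mt_congr (u0 := u0) h
  unfold lab
  rw [h1, h2]

theorem Yn_mono (a : E → Bool) {i j : ℕ} (h : i ≤ j) :
    Yn src tgt u0 f w a i ⊆ Yn src tgt u0 f w a j := by
  induction j, h using Nat.le_induction with
  | base => exact Finset.Subset.refl _
  | succ j _ ih => exact ih.trans Finset.subset_union_left

/-- all constraints of `Y` hold: the numbers of points are even -/
def Ev (src tgt : E → U) (u0 : U) (a : E → Bool) (Y : Finset U) : Prop :=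
  ∀ u ∈ Y, Even (Zs src tgt u0 a u).card

theorem HasT_anti {M M' : Finset (Sym2 (VH E))} (h : M ⊆ M') (hT : HasT f w M') :
    HasT f w M := by
  obtain ⟨t, h1, h2, h3⟩ := hT
  exact ⟨t, h1, isM_sub h2 (Finset.union_subset_union_right h), h3⟩

/-- the counting argument: after `w + 1` rounds there is no compatible small witness of `false` -/
theorem no_false_wit {r : ℕ} (hf : Val w r f) {a : E → Bool}
    (hev : Ev src tgt u0 a (YA src tgt u0 f w a))
    (hT : HasT f w (Mt src tgt u0 a (YA src tgt u0 f w a))) {t : Finset (Sym2 (VH E))}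
    (ht : t.card ≤ w) (hM : IsM (t ∪ Mt src tgt u0 a (YA src tgt u0 f w a))) :
    f t ≠ some false := by
  classical
  intro hft
  set Mi : ℕ → Finset (Sym2 (VH E)) := fun i => Mt src tgt u0 a (Yn src tgt u0 f w a i) with hMi
  have hMm : ∀ i j, i ≤ j → Mi i ⊆ Mi j := fun i j h => Mt_mono a (Yn_mono a h)
  have htM : IsM t := isM_sub hM Finset.subset_union_left
  -- in every round `t` gets a new edge
  have hnew : ∀ i, i < w + 1 → ∃ e ∈ t, e ∈ Mi (i + 1) ∧ e ∉ Mi i := by
    intro i hi
    have hTi : HasT f w (Mi i) := HasT_anti (hMm i (w + 1) (by omega)) hT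
    obtain ⟨c1, c2, c3⟩ := tc_spec hTi
    set ti := tc f w (Mi i) with hti
    have hconf : ¬ IsM (t ∪ ti) := by
      intro hU
      have e1 := hf.mono t (t ∪ ti) hU Finset.subset_union_left false hft
      have e2 := hf.mono ti (t ∪ ti) hU Finset.subset_union_right true c3
      rw [e1] at e2
      exact absurd e2 (by simp)
    have htiM : IsM ti := isM_sub c2 Finset.subset_union_left
    -- a common point of different edges
    obtain ⟨e, he, g, hg, x, hxe, hxg, hne⟩ : ∃ e ∈ t, ∃ g ∈ ti, ∃ x, x ∈ e ∧ x ∈ g ∧ e ≠ g := by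
      by_contra hcon
      push Not at hcon
      apply hconf
      refine ⟨fun e he => ?_, fun e he g hg x hxe hxg => ?_⟩
      · rcases Finset.mem_union.1 he with h | h
        · exact htM.1 e h
        · exact htiM.1 e h
      · rcases Finset.mem_union.1 he with h | h <;> rcases Finset.mem_union.1 hg with h' | h'
        · exact htM.2 e h g h' x hxe hxg
        · exact hcon e h g h' x hxe hxg
        · exact (hcon g h' e h x hxg hxe).symm
        · exact htiM.2 e h g h' x hxe hxg
    -- the point is covered in the next round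
    have hcl : clu src tgt u0 x ∈ Yn src tgt u0 f w a (i + 1) := by
      refine Finset.mem_union_right _ (Finset.mem_image.2 ⟨x, ?_, rfl⟩)
      exact mem_cov.2 ⟨g, hg, hxg⟩
    have hcov : x ∈ cov (Mi (i + 1)) := cov_Mt hcl (hev _ (Yn_mono a (by omega) hcl))
    obtain ⟨e', he', hxe'⟩ := mem_cov.1 hcov
    have h1 : e = e' := hM.2 e (Finset.mem_union_left _ he) e'
      (Finset.mem_union_right _ (hMm (i + 1) (w + 1) (by omega) he')) x hxe hxe'
    refine ⟨e, he, by rw [h1]; exact he', ?_⟩
    intro h2
    exact hne (c2.2 e (Finset.mem_union_right _ h2) g (Finset.mem_union_left _ hg) x hxe hxg)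
  have : Nonempty (Sym2 (VH E)) := ⟨s(Sum.inr (), Sum.inr ())⟩
  choose! pick hp1 hp2 hp3 using hnew
  have hinj : Set.InjOn pick (Finset.range (w + 1) : Set ℕ) := by
    intro i hi j hj hij
    rw [Finset.mem_coe, Finset.mem_range] at hi hj
    by_contra hne
    rcases Nat.lt_or_gt_of_ne hne with h | h
    · apply hp3 j hj
      rw [← hij]
      exact hMm _ _ (by omega) (hp2 i hi)
    · apply hp3 i hi
      rw [hij]
      exact hMm _ _ (by omega) (hp2 j hj)
  have hcard := Finset.card_le_card_of_injOn (s := Finset.range (w + 1)) (t := t) pick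
    (fun i hi => hp1 i (Finset.mem_range.1 hi)) hinj
  rw [Finset.card_range] at hcard
  omega

/-- above the structured matching, every value is the label -/
theorem lab_val {r : ℕ} (hf : Val w r f) {a : E → Bool} {Y : Finset U}
    (hev : Ev src tgt u0 a (YA src tgt u0 f w a)) (hY : YA src tgt u0 f w a ⊆ Y)
    {M : Finset (Sym2 (VH E))} (hM : IsM M) (hsub : Mt src tgt u0 a Y ⊆ M) {b : Bool}
    (hb : f M = some b) : b = lab src tgt u0 f w a := by
  classical
  obtain ⟨t, h1, h2, h3⟩ := hf.wit M hM b hb
  have h4 : Mt src tgt u0 a (YA src tgt u0 f w a) ⊆ M := (Mt_mono a hY).trans hsub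
  have h5 : IsM (t ∪ Mt src tgt u0 a (YA src tgt u0 f w a)) :=
    isM_sub hM (Finset.union_subset h1 h4)
  unfold lab
  cases b
  · symm
    rw [decide_eq_false_iff_not]
    intro hT
    exact no_false_wit hf hev hT h2 h5 h3
  · symm
    rw [decide_eq_true_iff]
    exact ⟨t, h2, h5, h3⟩

/-- there is a matching where all formulas of a list have their labels as values -/
theorem lab_list {W : Type} {val : Fm W → Finset (Sym2 (VH E)) → Option Bool} {S : Set (Fm W)}
    {r : ℕ} (hval : ∀ A ∈ S, Val w r (val A)) (l : List (Fm W)) (hl : ∀ A ∈ l, A ∈ S)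
    {a : E → Bool} {Y : Finset U} (hY : ∀ A ∈ l, YA src tgt u0 (val A) w a ⊆ Y)
    (hev : Ev src tgt u0 a Y)
    (hroom : 2 * ((inc src tgt Y).card + w * l.length) + r ≤ Fintype.card (VH E)) :
    ∃ M, IsM M ∧ ∀ A ∈ l, val A M = some (lab src tgt u0 (val A) w a) := by
  obtain ⟨M', h1, h2, _, h4⟩ := snd_decide hval l hl (Mt src tgt u0 a Y) (isM_Mt a Y) (by
    have := card_Mt (src := src) (tgt := tgt) (u0 := u0) a Y
    omega)
  refine ⟨M', h1, fun A hA => ?_⟩
  obtain ⟨b, hb⟩ := Option.ne_none_iff_exists'.1 (h4 A hA)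
  rw [hb]
  congr 1
  exact lab_val (hval A (hl A hA)) (fun u hu => hev u (hY A hA hu)) (hY A hA) h1 h2 hb

end Pool.Agent.H3.Alg
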