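import Mathlib
import Pool.Agent.H3.Wd.Defs
import Pool.Agent.H3.Alg.Lab

set_option autoImplicit false
set_option linter.unusedSectionVars false

/-!
# The pseudo-model of a world

Every relation between the values of at most six formulas that holds at all matchings holds for the
labels up to a function that is pseudo-equal to zero.
-/

namespace Pool.Agent.H3.Alg

open Finset Pool.Agent.H3.Frg Pool.Agent.H3.Ac Pool.Agent.H3.Wd

variable {E U : Type} [Fintype E] [DecidableEq E] [Fintype U] [DecidableEq U]

/-- the number of edges queried for one formula -/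
def L1 (w : ℕ) : ℕ := 560 * w * (w + 1)

/-- the graph -/
structure GH (src tgt : E → U) (d w : ℕ) : Prop where
  /-- no loops -/
  loop : ∀ e, src e ≠ tgt e
  /-- degrees -/
  deg : ∀ u, (bd src tgt {u}).card ≤ 280
  /-- expansion -/
  exp : Expd src tgt d
  /-- room -/
  room : 12 * L1 w + 280 ≤ d

/-- the labels -/
noncomputable def lb {W : Type} (src tgt : E → U) (u0 : U)
    (val : Fm W → Finset (Sym2 (VH E)) → Option Bool) (w : ℕ) (a : E → Bool) : Fm W → Bool :=
  fun A => lab src tgt u0 (val A) w a

/-- a bit as an element of the field -/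
def rb (K : Type) [Field K] (b : Bool) : K := if b then 1 else 0

variable {src tgt : E → U} {u0 : U} {K : Type} [Field K] {W : Type}
  {val : Fm W → Finset (Sym2 (VH E)) → Option Bool} {S Ax : Set (Fm W)} {d w : ℕ}

theorem d_lt_card (hx : Expd src tgt d) : d < Fintype.card E := by
  have h3 := hx.three
  obtain ⟨X, _, hX⟩ := Finset.exists_subset_card_eq (s := (univ : Finset U))
    (n := 2 * Fintype.card U / 3) (by rw [Finset.card_univ]; omega)
  have h1 := hx.exp X (by omega) (by omega)
  exact h1.trans_le (Finset.card_le_univ _)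

/-- the queried set of a list of formulas -/
noncomputable def YL (src tgt : E → U) (u0 : U)
    (val : Fm W → Finset (Sym2 (VH E)) → Option Bool) (w : ℕ) :
    List (Fm W) → (E → Bool) → Finset U
  | [] => fun _ => ∅
  | A :: l => fun a => YA src tgt u0 (val A) w a ∪ YL src tgt u0 val w l a

theorem YL_SC (l : List (Fm W)) : SC src tgt (YL src tgt u0 val w l) := by
  induction l with
  | nil => intro a a' _; rfl
  | cons A l ih => exact SC_union YA_SC ih

theorem YL_sub (l : List (Fm W)) (A : Fm W) (hA : A ∈ l) (a : E → Bool) :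
    YA src tgt u0 (val A) w a ⊆ YL src tgt u0 val w l a := by
  induction l with
  | nil => exact absurd hA (List.not_mem_nil)
  | cons B l ih =>
    rcases List.mem_cons.1 hA with rfl | hA
    · exact Finset.subset_union_left
    · exact (ih hA).trans Finset.subset_union_right

theorem YL_card (l : List (Fm W)) (a : E → Bool) :
    (YL src tgt u0 val w l a).card ≤ 2 * w * (w + 1) * l.length := by
  induction l with
  | nil => simp [YL]
  | cons B l ih =>
    refine (Finset.card_union_le _ _).trans ?_
    have h1 := YA_card (src := src) (tgt := tgt) (u0 := u0) (f := val B) (w := w) a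
    rw [List.length_cons, Nat.mul_succ]
    omega

theorem inc_YL (hG : GH src tgt d w) (l : List (Fm W)) (a : E → Bool) :
    (inc src tgt (YL src tgt u0 val w l a)).card ≤ L1 w * l.length := by
  refine (inc_card_le hG.loop hG.deg _).trans ?_
  refine (Nat.mul_le_mul_left _ (YL_card l a)).trans (le_of_eq ?_)
  unfold L1
  ring

theorem loc_comp {β : Type} (l : List (Fm W)) (G : (Fm W → Bool) → β)
    (hG : ∀ x y, (∀ A ∈ l, x A = y A) → G x = G y) :
    Loc src tgt (YL src tgt u0 val w l) (fun a => G (lb src tgt u0 val w a)) := by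
  intro a a' h
  refine hG _ _ fun A hA => ?_
  exact lab_Loc a a' fun e he => h e (inc_mono (YL_sub l A hA a) he)

/-- functions of the labels of a list have small degree -/
theorem kdg_comp (hGH : GH src tgt d w) (l : List (Fm W)) (G : (Fm W → Bool) → K)
    (hG : ∀ x y, (∀ A ∈ l, x A = y A) → G x = G y) :
    KDg (fun a => G (lb src tgt u0 val w a)) (L1 w * l.length) :=
  kdg_loc (YL_SC l) (loc_comp l G hG) fun a => inc_YL hGH l a

theorem kdg_rb (hGH : GH src tgt d w) (A : Fm W) :
    KDg (fun a => rb K (lb src tgt u0 val w a A)) (L1 w) := by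
  have h := kdg_comp (K := K) (u0 := u0) (val := val) hGH [A] (fun x => rb K (x A))
    (fun x y h => by rw [h A (by simp)])
  rwa [List.length_singleton, mul_one] at h

/-- relations between few values hold for the labels, up to a pseudo-zero function -/
theorem pk (h2 : (2 : K) ≠ 0) (hGH : GH src tgt d w) (hW : World S Ax w (VH E) val)
    (l : List (Fm W)) (hl : ∀ A ∈ l, A ∈ S) (h6 : l.length ≤ 6) (G : (Fm W → Bool) → K)
    (hG : ∀ x y, (∀ A ∈ l, x A = y A) → G x = G y)
    (h0 : ∀ x : Fm W → Bool, ∀ M, IsM M → (∀ A ∈ l, val A M = some (x A)) → G x = 0)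
    {k : ℕ} (hk : k ≤ 6 * L1 w) :
    KZ src tgt d (sgn K src tgt u0) k (fun a => G (lb src tgt u0 val w a)) := by
  have hroom := hGH.room
  have hlen : L1 w * l.length ≤ 6 * L1 w := by
    rw [mul_comm]
    exact Nat.mul_le_mul_right _ h6
  refine loc_zero h2 hGH.exp sgn_mul_self hGH.deg (YL_SC l) (loc_comp l G hG)
    (L := L1 w * l.length) (fun a => inc_YL hGH l a) (by omega) ?_
  intro a hsat
  have hev : Ev src tgt u0 a (YL src tgt u0 val w l a) := fun u hu =>
    (sat_iff h2 hGH.loop a u).1 (hsat u hu)
  obtain ⟨M, hM, hv⟩ := lab_list hW.vals l hl (fun A hA => YL_sub l A hA a) hev (by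
    have h1 := inc_YL (u0 := u0) (val := val) hGH l a
    have h3 : Fintype.card (VH E) = Fintype.card E * 2 + 1 := by
      simp [VH]
    have h4 := d_lt_card hGH.exp
    have h5 : w * l.length ≤ w * 6 := Nat.mul_le_mul_left _ h6
    have h7 : 10 * w ≤ L1 w := by
      unfold L1
      nlinarith [Nat.zero_le w]
    rw [h3]
    omega)
  exact h0 _ M hM hv

end Pool.Agent.H3.Alg
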