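import Mathlib
import Pool.Agent.H3.Alg.Cj
import Pool.Agent.H3.Alg.Pmod

set_option autoImplicit false
set_option linter.unusedSectionVars false

/-!
# The functional on polynomials whose variables are formulas
-/

namespace Pool.Agent.H3.Alg

open Finset Pool.Agent.H3.Frg Pool.Agent.H3.Frg2 Pool.Agent.H3.Ac Pool.Agent.H3.Wd

variable {W : Type}

/-- the conjunction of the formulas of a monomial -/
noncomputable def Bm (v0 : W) (m : Fm W →₀ ℕ) : Fm W := cj v0 m.support.toList

/-- the implication of the formulas of a monomial -/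
noncomputable def Cm (v0 : W) (m : Fm W →₀ ℕ) : Fm W := ch v0 m.support.toList

theorem Bm_eq (v0 : W) (m : Fm W →₀ ℕ) : Bm v0 m = Fm.neg (Cm v0 m) := rfl

variable {E U : Type} [Fintype E] [DecidableEq E] [Fintype U] [DecidableEq U]
variable {src tgt : E → U} {u0 : U} {K : Type} [Field K]
  {val : Fm W → Finset (Sym2 (VH E)) → Option Bool} {S Ax : Set (Fm W)} {d w : ℕ}

/-- the value of a polynomial: a monomial has the label of its conjunction -/
noncomputable def phi (K : Type) [Field K] (src tgt : E → U) (u0 : U)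
    (val : Fm W → Finset (Sym2 (VH E)) → Option Bool) (w : ℕ) (v0 : W) (a : E → Bool) :
    MvPolynomial (Fm W) K →ₗ[K] K :=
  (MvPolynomial.basisMonomials (Fm W) K).constr K
    (fun m => rb K (lb src tgt u0 val w a (Bm v0 m)))

theorem phi_monomial (v0 : W) (a : E → Bool) (m : Fm W →₀ ℕ) (c : K) :
    phi K src tgt u0 val w v0 a (MvPolynomial.monomial m c)
      = c * rb K (lb src tgt u0 val w a (Bm v0 m)) := by
  have h1 : MvPolynomial.monomial m c
      = c • (MvPolynomial.basisMonomials (Fm W) K) m := by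
    rw [MvPolynomial.coe_basisMonomials, MvPolynomial.smul_monomial, smul_eq_mul, mul_one]
  rw [h1, map_smul]
  unfold phi
  rw [Module.Basis.constr_basis, smul_eq_mul]

theorem phi_sum (v0 : W) (a : E → Bool) (f : MvPolynomial (Fm W) K) :
    phi K src tgt u0 val w v0 a f
      = ∑ m ∈ f.support, f.coeff m * rb K (lb src tgt u0 val w a (Bm v0 m)) := by
  conv_lhs => rw [f.as_sum, map_sum]
  exact Finset.sum_congr rfl fun m _ => phi_monomial v0 a m _

theorem KDg_sum {ι : Type} (s : Finset ι) {D : ℕ} (c : ι → K) (p : ι → (E → Bool) → K)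
    (h : ∀ i ∈ s, KDg (p i) D) : KDg (fun z => ∑ i ∈ s, c i * p i z) D := by
  classical
  induction s using Finset.induction_on with
  | empty =>
    intro T _
    unfold kW
    simp
  | insert a s ha ih =>
    have h1 : (fun z => ∑ i ∈ insert a s, c i * p i z)
        = fun z => c a * p a z + ∑ i ∈ s, c i * p i z := by
      funext z
      rw [Finset.sum_insert ha]
    rw [h1]
    exact KDg_add (KDg_smul _ (h a (Finset.mem_insert_self _ _)))
      (ih fun i hi => h i (Finset.mem_insert_of_mem hi))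

theorem phi_kdg (hGH : GH src tgt d w) (v0 : W) (f : MvPolynomial (Fm W) K) :
    KDg (fun a => phi K src tgt u0 val w v0 a f) (L1 w) := by
  have h1 : (fun a => phi K src tgt u0 val w v0 a f)
      = fun a => ∑ m ∈ f.support, f.coeff m * rb K (lb src tgt u0 val w a (Bm v0 m)) := by
    funext a
    exact phi_sum v0 a f
  rw [h1]
  exact KDg_sum _ _ _ fun m _ => kdg_rb hGH _

/-- the conjunction of a list with one more formula -/
theorem cj_insert {V : Type} [Fintype V] [DecidableEq V]
    {val : Fm W → Finset (Sym2 V) → Option Bool} {r : ℕ}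
    (hval : ∀ A ∈ S, Val w r (val A)) (hcoh : Coh val S) (hS : SubCl S) (v0 : W)
    (hroom : 2 * (2 * w + w + w * 2) + r ≤ Fintype.card V) {l l2 : List (Fm W)} {A : Fm W}
    (hl : ∀ X, X ∈ l ↔ X = A ∨ X ∈ l2) (h : cj v0 l ∈ S) (h2 : cj v0 l2 ∈ S)
    {M : Finset (Sym2 V)} (hM : IsM M) {b b2 c c2 x : Bool}
    (hb : val (cj v0 l) M = some b) (hb2 : val (cj v0 l2) M = some b2)
    (hc : val (ch v0 l) M = some c) (hc2 : val (ch v0 l2) M = some c2)
    (hx : val A M = some x) : b = (x && b2) := by
  have g : ch v0 l ∈ S := hS.1 _ h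
  have g2 : ch v0 l2 ∈ S := hS.1 _ h2
  have hAS : A ∈ S := ch_mem hS v0 l g A ((hl A).2 (Or.inl rfl))
  have e := hcoh.neg _ h M hM c b hc hb
  have e2 := hcoh.neg _ h2 M hM c2 b2 hc2 hb2
  have hr1 : 2 * (2 * w + w * 2) + r ≤ Fintype.card V := by omega
  have k1 : c = false → x = true := by
    intro hcf
    rw [hcf] at hc
    have := ch_false hval hcoh hS v0 hr1 l g A ((hl A).2 (Or.inl rfl)) M hM hc
    rw [hx] at this
    cases x
    · exact absurd rfl this
    · rfl
  have k2 : c = false → c2 = false := by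
    intro hcf
    rw [hcf] at hc
    obtain ⟨t, a1, a2, a3⟩ := (hval _ g).wit M hM false hc
    have := ch_true hval hcoh hS v0 w (by omega) t a2 l2 g2 (fun X hX N hN htN =>
      ch_false hval hcoh hS v0 hr1 l g X ((hl X).2 (Or.inr hX)) N hN
        ((hval _ g).mono t N hN htN false a3)) M hM a1
    rw [hc2] at this
    cases c2
    · rfl
    · exact absurd rfl this
  have k3 : x = true → c2 = false → c = false := by
    intro hxt hf2
    rw [hf2] at hc2
    rw [hxt] at hx
    obtain ⟨t1, a1, a2, a3⟩ := (hval _ hAS).wit M hM true hx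
    obtain ⟨t2, b1', b2', b3⟩ := (hval _ g2).wit M hM false hc2
    have := ch_true hval hcoh hS v0 (2 * w) (by omega) (t1 ∪ t2)
      ((Finset.card_union_le _ _).trans (by omega)) l g (fun X hX N hN htN => by
        rcases (hl X).1 hX with rfl | h'
        · rw [(hval _ hAS).mono t1 N hN (Finset.subset_union_left.trans htN) true a3]
          simp
        · exact ch_false hval hcoh hS v0 hr1 l2 g2 X h' N hN
            ((hval _ g2).mono t2 N hN (Finset.subset_union_right.trans htN) false b3))
      M hM (Finset.union_subset a1 b1')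
    rw [hc] at this
    cases c
    · rfl
    · exact absurd rfl this
  have key : ∀ c x c2 : Bool, (c = false → x = true) → (c = false → c2 = false) →
      (x = true → c2 = false → c = false) → (!c) = (x && !c2) := by decide
  rw [e, e2]
  exact key c x c2 k1 k2 k3

/-- room for the conjunction lemmas -/
theorem room_cj (hGH : GH src tgt d w) :
    2 * (2 * w + w + w * 2) + 8 * w ≤ Fintype.card (VH E) := by
  have h3 : Fintype.card (VH E) = Fintype.card E * 2 + 1 := by
    simp [VH]
  have h4 := d_lt_card hGH.exp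
  have h5 := hGH.room
  have h7 : 10 * w ≤ L1 w := by
    unfold L1
    nlinarith [Nat.zero_le w]
  rw [h3]
  omega

/-- the label of the conjunction of a monomial with one more formula -/
theorem pz_insert (h2 : (2 : K) ≠ 0) (hGH : GH src tgt d w) (hW : World S Ax w (VH E) val)
    (hS : SubCl S) (v0 : W) {m m' : Fm W →₀ ℕ} {A : Fm W}
    (hm : ∀ X, X ∈ m'.support ↔ X = A ∨ X ∈ m.support) (hm' : Bm v0 m' ∈ S)
    (hm0 : Bm v0 m ∈ S) {k : ℕ} (hk : k ≤ 6 * L1 w) :
    KZ src tgt d (sgn K src tgt u0) k (fun a => rb K (lb src tgt u0 val w a (Bm v0 m'))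
      - rb K (lb src tgt u0 val w a A) * rb K (lb src tgt u0 val w a (Bm v0 m))) := by
  have g' : Cm v0 m' ∈ S := hS.1 _ hm'
  have g : Cm v0 m ∈ S := hS.1 _ hm0
  have hA : A ∈ S := ch_mem hS v0 _ g' A (by
    rw [Finset.mem_toList]
    exact (hm A).2 (Or.inl rfl))
  refine pk (K := K) (u0 := u0) h2 hGH hW [Bm v0 m', Cm v0 m', Bm v0 m, Cm v0 m, A] ?_ (by simp)
    (fun x => rb K (x (Bm v0 m')) - rb K (x A) * rb K (x (Bm v0 m))) ?_ ?_ hk
  · intro X hX
    simp only [List.mem_cons, List.not_mem_nil, or_false] at hX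
    rcases hX with rfl | rfl | rfl | rfl | rfl
    · exact hm'
    · exact g'
    · exact hm0
    · exact g
    · exact hA
  · intro x y hxy
    simp only [hxy (Bm v0 m') (by simp), hxy (Bm v0 m) (by simp), hxy A (by simp)]
  · intro x M hM hv
    have e := cj_insert hW.vals hW.coh hS v0 (room_cj hGH) (l := m'.support.toList)
      (l2 := m.support.toList) (A := A) (fun X => by
        rw [Finset.mem_toList, Finset.mem_toList]
        exact hm X) hm' hm0 hM (hv (Bm v0 m') (by simp)) (hv (Bm v0 m) (by simp))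
        (hv (Cm v0 m') (by simp)) (hv (Cm v0 m) (by simp)) (hv A (by simp))
    rw [e]
    cases x A <;> cases x (Bm v0 m) <;> simp [rb]

/-- the label of the empty conjunction -/
theorem pz_one (h2 : (2 : K) ≠ 0) (hGH : GH src tgt d w) (hW : World S Ax w (VH E) val)
    (hS : SubCl S) (v0 : W) (hm0 : Bm v0 0 ∈ S) {k : ℕ} (hk : k ≤ 6 * L1 w) :
    KZ src tgt d (sgn K src tgt u0) k
      (fun a => rb K (lb src tgt u0 val w a (Bm v0 0)) - 1) := by
  have h0 : Bm v0 (0 : Fm W →₀ ℕ) = cj v0 [] := by
    unfold Bm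
    rw [Finsupp.support_zero, Finset.toList_empty]
  rw [h0] at hm0 ⊢
  have g : ch v0 ([] : List (Fm W)) ∈ S := hS.1 _ hm0
  have g1 : Fm.imp (Fm.var v0) (Fm.var v0) ∈ S := hS.1 _ g
  have g2 : Fm.var v0 ∈ S := (hS.2 _ _ g1).1
  refine pk (K := K) (u0 := u0) h2 hGH hW
    [cj v0 [], ch v0 [], Fm.imp (Fm.var v0) (Fm.var v0), Fm.var v0] ?_ (by simp)
    (fun x => rb K (x (cj v0 [])) - 1) ?_ ?_ hk
  · intro X hX
    simp only [List.mem_cons, List.not_mem_nil, or_false] at hX
    rcases hX with rfl | rfl | rfl | rfl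
    · exact hm0
    · exact g
    · exact g1
    · exact g2
  · intro x y hxy
    simp only [hxy (cj v0 []) (by simp)]
  · intro x M hM hv
    have e := bot_false hW.coh hS v0 g hM (hv (ch v0 []) (by simp))
      (hv (Fm.imp (Fm.var v0) (Fm.var v0)) (by simp)) (hv (Fm.var v0) (by simp))
    have e2 := hW.coh.neg _ hm0 M hM _ _ (hv (ch v0 []) (by simp)) (hv (cj v0 []) (by simp))
    rw [e2, e]
    simp [rb]

end Pool.Agent.H3.Alg
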