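import Mathlib
import Pool.Agent.H3.Ac.LDep
import Pool.Agent.H3.Alg.AxZ

set_option autoImplicit false
set_option linter.unusedSectionVars false

/-!
# The list of formulas: a closed set, the conjunctions of its monomials
-/

namespace Pool.Agent.H3.Alg

open Finset Pool.Agent.H3.Frg Pool.Agent.H3.Frg2 Pool.Agent.H3.Ac Pool.Agent.H3.Wd MvPolynomial

variable {W : Type}

theorem LDep_succ {P : Fm W → Prop} {D : ℕ} {A : Fm W} (h : LDep P D A) : LDep P (D + 1) A := by
  induction h with
  | var d v => exact LDep.var _ v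
  | base d A h => exact LDep.base _ A h
  | neg d A _ ih => exact LDep.neg _ A ih
  | imp d A B _ _ ih1 ih2 => exact LDep.imp _ A B ih1 ih2

theorem LDep_mono' {P : Fm W → Prop} {D D' : ℕ} {A : Fm W} (h : LDep P D A) (hD : D ≤ D') :
    LDep P D' A := by
  induction D', hD using Nat.le_induction with
  | base => exact h
  | succ n _ ih => exact LDep_succ ih

/-- the suffixes of the implication -/
def chn (v0 : W) : List (Fm W) → List (Fm W)
  | [] => [ch v0 []]
  | A :: l => ch v0 (A :: l) :: chn v0 l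

theorem chn_self (v0 : W) (l : List (Fm W)) : ch v0 l ∈ chn v0 l := by
  cases l <;> simp [chn]

theorem chn_length (v0 : W) (l : List (Fm W)) : (chn v0 l).length = l.length + 1 := by
  induction l with
  | nil => rfl
  | cons A l ih => simp [chn, ih]

/-- the elements of the chain -/
theorem mem_chn (v0 : W) (l : List (Fm W)) {X : Fm W} (h : X ∈ chn v0 l) :
    X = ch v0 [] ∨ ∃ A ∈ l, ∃ Y ∈ chn v0 l, X = Fm.imp A Y := by
  induction l with
  | nil =>
    simp only [chn, List.mem_singleton] at h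
    exact Or.inl h
  | cons B l ih =>
    simp only [chn, List.mem_cons] at h
    rcases h with h | h
    · right
      refine ⟨B, by simp, ch v0 l, ?_, h⟩
      simp only [chn, List.mem_cons]
      exact Or.inr (chn_self v0 l)
    · rcases ih h with h1 | ⟨A, hA, Y, hY, h1⟩
      · exact Or.inl h1
      · right
        refine ⟨A, by simp [hA], Y, ?_, h1⟩
        simp only [chn, List.mem_cons]
        exact Or.inr hY

theorem chn_ldep {P : Fm W → Prop} {D : ℕ} (v0 : W) (l : List (Fm W))
    (h : ∀ A ∈ l, LDep P D A) : ∀ X ∈ chn v0 l, LDep P (D + 2) X := by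
  have h0 : LDep P (D + 2) (ch v0 ([] : List (Fm W))) := by
    show LDep P (D + 1 + 1) (Fm.neg (Fm.imp (Fm.var v0) (Fm.var v0)))
    exact LDep.neg _ _ (LDep.imp _ _ _ (LDep.var _ _) (LDep.var _ _))
  induction l with
  | nil =>
    intro X hX
    simp only [chn, List.mem_singleton] at hX
    rw [hX]
    exact h0
  | cons B l ih =>
    have ih' := ih fun A hA => h A (by simp [hA])
    intro X hX
    simp only [chn, List.mem_cons] at hX
    rcases hX with rfl | hX
    · show LDep P (D + 1 + 1) (Fm.imp B (ch v0 l))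
      exact LDep.imp _ _ _ (LDep_succ (h B (by simp))) (ih' _ (chn_self v0 l))
    · exact ih' X hX

/-- the list of all formulas -/
noncomputable def bigL (v0 : W) (F : Finset (Fm W)) (T : Finset (Fm W →₀ ℕ)) : List (Fm W) :=
  F.toList ++ (Fm.imp (Fm.var v0) (Fm.var v0) :: Fm.var v0 ::
    T.toList.flatMap fun m => Bm v0 m :: chn v0 m.support.toList)

theorem mem_bigL {v0 : W} {F : Finset (Fm W)} {T : Finset (Fm W →₀ ℕ)} {X : Fm W} :
    X ∈ bigL v0 F T ↔ X ∈ F ∨ X = Fm.imp (Fm.var v0) (Fm.var v0) ∨ X = Fm.var v0 ∨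
      ∃ m ∈ T, X = Bm v0 m ∨ X ∈ chn v0 m.support.toList := by
  unfold bigL
  rw [List.mem_append, List.mem_cons, List.mem_cons, List.mem_flatMap, Finset.mem_toList]
  simp only [Finset.mem_toList, List.mem_cons]

theorem bigL_sub {v0 : W} {F : Finset (Fm W)} {T : Finset (Fm W →₀ ℕ)}
    (hF : SubCl (F : Set (Fm W))) (hT : ∀ m ∈ T, ∀ A ∈ m.support, A ∈ F) :
    SubCl {A | A ∈ bigL v0 F T} := by
  have hv : Fm.var v0 ∈ bigL v0 F T := mem_bigL.2 (Or.inr (Or.inr (Or.inl rfl)))
  have hi : Fm.imp (Fm.var v0) (Fm.var v0) ∈ bigL v0 F T := mem_bigL.2 (Or.inr (Or.inl rfl))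
  have hch : ∀ m ∈ T, ∀ X, X ∈ chn v0 m.support.toList → X ∈ bigL v0 F T := fun m hm X hX =>
    mem_bigL.2 (Or.inr (Or.inr (Or.inr ⟨m, hm, Or.inr hX⟩)))
  constructor
  · intro A hA
    rcases mem_bigL.1 hA with h | h | h | ⟨m, hm, h | h⟩
    · exact mem_bigL.2 (Or.inl (hF.1 A h))
    · exact absurd h (by simp)
    · exact absurd h (by simp)
    · rw [Bm_eq] at h
      rw [Fm.neg.inj h]
      exact hch m hm _ (chn_self v0 _)
    · rcases mem_chn v0 _ h with h1 | ⟨B, _, Y, _, h1⟩
      · have h2 : A = Fm.imp (Fm.var v0) (Fm.var v0) := Fm.neg.inj h1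
        rw [h2]
        exact hi
      · exact absurd h1 (by simp)
  · intro A B hA
    rcases mem_bigL.1 hA with h | h | h | ⟨m, hm, h | h⟩
    · exact ⟨mem_bigL.2 (Or.inl (hF.2 A B h).1), mem_bigL.2 (Or.inl (hF.2 A B h).2)⟩
    · obtain ⟨h1, h2⟩ := Fm.imp.inj h
      rw [h1, h2]
      exact ⟨hv, hv⟩
    · exact absurd h (by simp)
    · rw [Bm_eq] at h
      exact absurd h (by simp)
    · rcases mem_chn v0 _ h with h1 | ⟨B', hB', Y, hY, h1⟩
      · exact absurd h1 (by simp [ch, bot])
      · obtain ⟨e1, e2⟩ := Fm.imp.inj h1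
        rw [e1, e2]
        exact ⟨mem_bigL.2 (Or.inl (hT m hm B' (Finset.mem_toList.1 hB'))), hch m hm Y hY⟩

theorem bigL_length (v0 : W) (F : Finset (Fm W)) (T : Finset (Fm W →₀ ℕ))
    (hT : ∀ m ∈ T, ∀ A ∈ m.support, A ∈ F) :
    (bigL v0 F T).length ≤ F.card + 2 + T.card * (F.card + 2) := by
  unfold bigL
  rw [List.length_append, List.length_cons, List.length_cons, Finset.length_toList,
    List.length_flatMap]
  have h1 : (T.toList.map fun m => (Bm v0 m :: chn v0 m.support.toList).length).sum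
      ≤ T.card * (F.card + 2) := by
    have h2 : ∀ x ∈ T.toList.map fun m => (Bm v0 m :: chn v0 m.support.toList).length,
        x ≤ F.card + 2 := by
      intro x hx
      rw [List.mem_map] at hx
      obtain ⟨m, hm, rfl⟩ := hx
      rw [List.length_cons, chn_length, Finset.length_toList]
      have h3 := Finset.card_le_card (show m.support ⊆ F from fun A hA =>
        hT m (Finset.mem_toList.1 hm) A hA)
      omega
    have h4 := List.sum_le_card_nsmul _ _ h2
    rw [List.length_map, Finset.length_toList, smul_eq_mul] at h4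
    exact h4
  omega

theorem bigL_ldep {P : Fm W → Prop} {D : ℕ} (v0 : W) (F : Finset (Fm W))
    (T : Finset (Fm W →₀ ℕ)) (hT : ∀ m ∈ T, ∀ A ∈ m.support, A ∈ F)
    (hD : ∀ A ∈ F, LDep P D A) : ∀ A ∈ bigL v0 F T, LDep P (D + 3) A := by
  have hc : ∀ m ∈ T, ∀ X ∈ chn v0 m.support.toList, LDep P (D + 2) X := fun m hm =>
    chn_ldep v0 _ fun A hA => hD A (hT m hm A (Finset.mem_toList.1 hA))
  intro A hA
  rcases mem_bigL.1 hA with h | h | h | ⟨m, hm, h | h⟩
  · exact LDep_mono' (hD A h) (by omega)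
  · rw [h]
    exact LDep.imp _ _ _ (LDep.var _ _) (LDep.var _ _)
  · rw [h]
    exact LDep.var _ _
  · rw [h, Bm_eq]
    exact LDep.neg _ _ (hc m hm _ (chn_self v0 _))
  · exact LDep_succ (hc m hm A h)

open scoped Classical in
/-- the list for a set of formulas and a set of monomials -/
theorem exists_big (v0 : W) (F : Finset (Fm W)) (hF : SubCl (F : Set (Fm W)))
    (Ms : Finset (Fm W →₀ ℕ)) (hMs : ∀ m ∈ Ms, ∀ A ∈ m.support, A ∈ F) {P : Fm W → Prop} {D : ℕ}
    (hD : ∀ A ∈ F, LDep P D A) :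
    ∃ S : List (Fm W), SubCl {A | A ∈ S} ∧ S.length ≤ 4 * (F.card + Ms.card + 2) ^ 4 ∧
      (∀ A ∈ S, LDep P (D + 3) A) ∧
      Big v0 (F : Set (Fm W)) ((insert 0 Ms : Finset (Fm W →₀ ℕ)) : Set (Fm W →₀ ℕ)) {A | A ∈ S} ∧
      ∀ m1 ∈ Ms, ∀ m2 ∈ Ms, Bm v0 (m1 + m2) ∈ S := by
  set M0 : Finset (Fm W →₀ ℕ) := insert 0 Ms with hM0
  have hM0s : ∀ m ∈ M0, ∀ A ∈ m.support, A ∈ F := by
    intro m hm A hA
    rcases Finset.mem_insert.1 hm with rfl | hm
    · simp at hA
    · exact hMs m hm A hA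
  set T2 : Finset (Fm W →₀ ℕ) := (M0 ×ˢ (F ×ˢ F)).image
    fun x => x.1 + Finsupp.single x.2.1 1 + Finsupp.single x.2.2 1 with hT2
  set T3 : Finset (Fm W →₀ ℕ) := (Ms ×ˢ Ms).image fun x => x.1 + x.2 with hT3
  set T : Finset (Fm W →₀ ℕ) := M0 ∪ (T2 ∪ T3) with hTd
  have hT : ∀ m ∈ T, ∀ A ∈ m.support, A ∈ F := by
    intro m hm A hA
    rcases Finset.mem_union.1 hm with h | h
    · exact hM0s m h A hA
    rcases Finset.mem_union.1 h with h | h
    · rw [hT2, Finset.mem_image] at h
      obtain ⟨⟨m', B, C⟩, h1, rfl⟩ := h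
      rw [Finset.mem_product, Finset.mem_product] at h1
      rw [mem_support_add, mem_support_add, mem_support_single one_ne_zero,
        mem_support_single one_ne_zero] at hA
      rcases hA with (hA | hA) | hA
      · exact hM0s m' h1.1 A hA
      · rw [hA]; exact h1.2.1
      · rw [hA]; exact h1.2.2
    · rw [hT3, Finset.mem_image] at h
      obtain ⟨⟨m1, m2⟩, h1, rfl⟩ := h
      rw [Finset.mem_product] at h1
      rw [mem_support_add] at hA
      rcases hA with hA | hA
      · exact hMs m1 h1.1 A hA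
      · exact hMs m2 h1.2 A hA
  have hBm : ∀ m ∈ T, Bm v0 m ∈ bigL v0 F T := fun m hm =>
    mem_bigL.2 (Or.inr (Or.inr (Or.inr ⟨m, hm, Or.inl rfl⟩)))
  refine ⟨bigL v0 F T, bigL_sub hF hT, ?_, bigL_ldep v0 F T hT hD,
    ⟨bigL_sub hF hT, ?_, hF, ?_, ?_, ?_⟩, ?_⟩
  · refine (bigL_length v0 F T hT).trans ?_
    have h1 : M0.card ≤ Ms.card + 1 := Finset.card_insert_le _ _
    have h2 : T2.card ≤ (Ms.card + 1) * (F.card * F.card) := by
      refine Finset.card_image_le.trans ?_
      rw [Finset.card_product, Finset.card_product]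
      exact Nat.mul_le_mul_right _ h1
    have h3 : T3.card ≤ Ms.card * Ms.card := by
      refine Finset.card_image_le.trans ?_
      rw [Finset.card_product]
    have h4 : T.card ≤ (Ms.card + 1) + ((Ms.card + 1) * (F.card * F.card)
        + Ms.card * Ms.card) := by
      refine (Finset.card_union_le _ _).trans ?_
      have := Finset.card_union_le T2 T3
      omega
    set N := F.card with hN
    set M := Ms.card with hM
    obtain ⟨x, hx⟩ : ∃ x, x = N + M + 2 := ⟨_, rfl⟩
    have hx2 : 2 ≤ x := by omega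
    have e1 : T.card ≤ 3 * x ^ 3 := by
      refine h4.trans ?_
      have a1 : M + 1 ≤ x := by omega
      have a2 : N ≤ x := by omega
      have a3 : M ≤ x := by omega
      have b1 : (M + 1) * (N * N) ≤ x * (x * x) :=
        Nat.mul_le_mul a1 (Nat.mul_le_mul a2 a2)
      have b2 : M * M ≤ x * x := Nat.mul_le_mul a3 a3
      have b3 : x ≤ x ^ 3 := Nat.le_self_pow (by omega) x
      have b4 : x * x ≤ x ^ 3 := by
        rw [← pow_two]
        exact Nat.pow_le_pow_right (by omega) (by omega)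
      have b5 : x * (x * x) = x ^ 3 := by ring
      omega
    have e2 : T.card * (N + 2) ≤ 3 * x ^ 3 * x := Nat.mul_le_mul e1 (by omega)
    have e3 : N + 2 ≤ x ^ 4 := (show N + 2 ≤ x by omega).trans (Nat.le_self_pow (by omega) x)
    have e4 : 3 * x ^ 3 * x = 3 * x ^ 4 := by ring
    rw [← hx]
    omega
  · intro A hA
    exact mem_bigL.2 (Or.inl hA)
  · exact Finset.mem_coe.2 (Finset.mem_insert_self _ _)
  · intro m hm
    exact hBm m (Finset.mem_union_left _ hm)
  · intro m hm A hA B hB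
    refine hBm _ (Finset.mem_union_right _ (Finset.mem_union_left _ ?_))
    rw [hT2, Finset.mem_image]
    exact ⟨(m, A, B), Finset.mem_product.2 ⟨hm, Finset.mem_product.2 ⟨hA, hB⟩⟩, rfl⟩
  · intro m1 h1 m2 h2
    refine hBm _ (Finset.mem_union_right _ (Finset.mem_union_right _ ?_))
    rw [hT3, Finset.mem_image]
    exact ⟨(m1, m2), Finset.mem_product.2 ⟨h1, h2⟩, rfl⟩

/-- the lines of a refutation have variables in `F` -/
theorem pc_supported {K : Type} [Field K] {C : ℕ → Fm W} {F : Set (Fm W)} (hF : SubCl F) {L : ℕ}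
    {pf : Fin L → MvPolynomial (Fm W) K} (hpf : PCRef K C F pf) (i : Fin L) :
    pf i ∈ supported K F := by
  have key : ∀ p : MvPolynomial (Fm W) K, FAx K C F p → p ∈ supported K F := by
    intro p hp
    cases hp with
    | bool A hA =>
      exact sub_mem (pow_mem (X_mem_supported.2 hA) 2) (X_mem_supported.2 hA)
    | neg A hA =>
      exact sub_mem (X_mem_supported.2 hA) (sub_mem (one_mem _)
        (X_mem_supported.2 (hF.1 A hA)))
    | imp A B hA =>
      obtain ⟨h1, h2⟩ := hF.2 A B hA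
      exact sub_mem (X_mem_supported.2 hA) (sub_mem (one_mem _)
        (mul_mem (X_mem_supported.2 h1) (sub_mem (one_mem _) (X_mem_supported.2 h2))))
    | hyp i hA => exact sub_mem (X_mem_supported.2 hA) (one_mem _)
  have h : ∀ n : ℕ, ∀ i : Fin L, (i : ℕ) = n → pf i ∈ supported K F := by
    intro n
    induction n using Nat.strong_induction_on with
    | _ n ih =>
      intro i hi
      rcases hpf.1 i with h | ⟨j, hj, k, hk, α, β, h⟩ | ⟨j, hj, A, hA, h⟩
      · exact key _ h
      · rw [h]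
        exact add_mem (Subalgebra.smul_mem _ (ih j (by rw [← hi]; exact hj) j rfl) α)
          (Subalgebra.smul_mem _ (ih k (by rw [← hi]; exact hk) k rfl) β)
      · rw [h]
        exact mul_mem (X_mem_supported.2 hA) (ih j (by rw [← hi]; exact hj) j rfl)
  exact h i i rfl

theorem supp_of_supported {K : Type} [Field K] {F : Set (Fm W)} {f : MvPolynomial (Fm W) K}
    (hf : f ∈ supported K F) {m : Fm W →₀ ℕ} (hm : m ∈ f.support) {A : Fm W}
    (hA : A ∈ m.support) : A ∈ F := by
  rw [mem_supported] at hf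
  apply hf
  rw [Finset.mem_coe, mem_vars]
  exact ⟨m, hm, hA⟩

end Pool.Agent.H3.Alg
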