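import Mathlib
import Pool.Agent.H3.Wd.Fin
import Pool.Agent.H3.Alg.Lst
import Pool.Agent.H3.Alg.Res
import Pool.Agent.H3.Frg3.RGraph
import Pool.Agent.H3.Ac.TowA

set_option autoImplicit false
set_option linter.unusedSectionVars false

/-!
# The world on an expander for the formulas and monomials of an algebraic proof
-/

namespace Pool.Agent.H3.Alg

open Finset Filter Topology Pool.Agent.H3.Frg Pool.Agent.H3.Frg2 Pool.Agent.H3.Frg3
  Pool.Agent.H3.Frg4 Pool.Agent.H3.Ac Pool.Agent.H3.Wd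

theorem exists_GH (w c : ℕ) (hc : 10 ^ 10 * (w + 1) ^ 2 ≤ c) :
    ∃ (E U : Type) (_ : Fintype E) (_ : DecidableEq E) (_ : Fintype U) (_ : DecidableEq U)
      (src tgt : E → U) (_ : U) (d : ℕ), GH src tgt d w ∧ 2 * Fintype.card E + 1 ≤ c := by
  obtain ⟨d, hd⟩ : ∃ d, d = 12 * L1 w + 280 := ⟨_, rfl⟩
  obtain ⟨N, hN⟩ : ∃ N, N = 3000 * d + 1000 := ⟨_, rfl⟩
  obtain ⟨R, hF, hD, rsrc, rtgt, h1, h2, h3, _, h5⟩ := exists_rgraph 0 (Fin N) (by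
    rw [Fintype.card_fin]; omega)
  rw [Fintype.card_fin] at h3 h5
  refine ⟨R, Fin N, hF, hD, inferInstance, inferInstance, rsrc, rtgt, ⟨0, by omega⟩, d,
    ⟨h1, fun u => ?_, ?_, ?_⟩, ?_⟩
  · have := h2 u; omega
  · refine expd_of_ch (c0 := 1000) (fun X => ?_) ?_ ?_
    · rw [Fintype.card_fin]; exact h3 X
    · rw [Fintype.card_fin]; omega
    · rw [Fintype.card_fin]; omega
  · omega
  · refine le_trans ?_ hc
    have e1 : L1 w ≤ 560 * (w + 1) ^ 2 := by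
      unfold L1
      nlinarith [Nat.zero_le w]
    have e2 : 1 ≤ (w + 1) ^ 2 := Nat.one_le_pow _ _ (by omega)
    generalize (w + 1) ^ 2 = z at e1 e2 ⊢
    omega

theorem card_VH (E : Type) [Fintype E] : Fintype.card (VH E) = 2 * Fintype.card E + 1 := by
  simp [VH]
  ring

/-- the world for an algebraic proof -/
theorem fin_big (θ : ℝ) (hθ : θ < 2) (D : ℕ) :
    ∃ (k : ℕ) (ε : ℝ), 0 < ε ∧ ∃ (d : ℕ → ℕ) (C : ℕ → ℕ → Fm ℕ) (τ : ℕ → Fm ℕ),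
      (∀ n, τ n = Fm.neg (bigAnd (d n) (C n))) ∧
      (∀ n i, IsClause k (C n i)) ∧
      (∀ n x, (τ n).eval x = true) ∧
      Tendsto (fun n => (τ n).enc.length) atTop atTop ∧
      ∀ᶠ n in atTop, ∀ F : Finset (Fm ℕ), SubCl (F : Set (Fm ℕ)) →
        (∀ A ∈ F, LDep (fun A => (A.enc.length : ℝ) ≤ ((τ n).enc.length : ℝ) ^ θ) D A) →
        ∀ Ms : Finset (Fm ℕ →₀ ℕ), (∀ m ∈ Ms, ∀ A ∈ m.support, A ∈ F) →
          (F.card + Ms.card : ℝ) < (2 : ℝ) ^ (((τ n).enc.length : ℝ) ^ ε) →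
          ∃ (E U : Type) (_ : Fintype E) (_ : DecidableEq E) (_ : Fintype U) (_ : DecidableEq U)
            (src tgt : E → U) (_ : U) (d w : ℕ)
            (val : Fm ℕ → Finset (Sym2 (VH E)) → Option Bool) (S : Set (Fm ℕ)),
            GH src tgt d w ∧ World S (Set.range (C n)) w (VH E) val ∧
            Big 0 (F : Set (Fm ℕ)) {m | m = 0 ∨ m ∈ Ms} S ∧
            ∀ m1 ∈ Ms, ∀ m2 ∈ Ms, Bm 0 (m1 + m2) ∈ S := by
  obtain ⟨k, ε, hε, d, C, τ, w, h1, h2, h3, h4, h5, h6⟩ := finalW θ hθ (D + 3) 3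
  refine ⟨k, ε / 2, by positivity, d, C, τ, h1, h2, h3, h4, ?_⟩
  have hx : Tendsto (fun n => ((τ n).enc.length : ℝ) ^ (ε / 2)) atTop atTop :=
    (tendsto_rpow_atTop (by positivity)).comp (tendsto_natCast_atTop_atTop.comp h4)
  filter_upwards [h6, hx.eventually_ge_atTop 8, h5.eventually_ge_atTop (10 ^ 11)]
    with n h7 h8 h9 F hF hFD Ms hMs hlt
  classical
  obtain ⟨S, hS, hSl, hSD, hB, hB2⟩ := exists_big 0 F hF Ms hMs hFD
  have hlen : (S.length : ℝ) ≤ (2 : ℝ) ^ (((τ n).enc.length : ℝ) ^ ε) := by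
    obtain ⟨y, hy⟩ : ∃ y : ℝ, y = ((τ n).enc.length : ℝ) ^ (ε / 2) := ⟨_, rfl⟩
    have hyy : ((τ n).enc.length : ℝ) ^ ε = y * y := by
      rw [hy, ← Real.rpow_add_of_nonneg (Nat.cast_nonneg _) (by positivity) (by positivity)]
      congr 1
      ring
    rw [← hy] at h8 hlt
    rw [hyy]
    have e1 : (S.length : ℝ) ≤ 4 * ((F.card : ℝ) + Ms.card + 2) ^ 4 := by exact_mod_cast hSl
    have e2 : (F.card : ℝ) + Ms.card + 2 ≤ (2 : ℝ) ^ (y + 1) := by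
      have e3 : (2 : ℝ) ≤ (2 : ℝ) ^ y := by
        calc (2 : ℝ) = (2 : ℝ) ^ (1 : ℝ) := (Real.rpow_one 2).symm
          _ ≤ (2 : ℝ) ^ y := Real.rpow_le_rpow_of_exponent_le (by norm_num) (by linarith)
      rw [Real.rpow_add (by norm_num), Real.rpow_one]
      linarith
    have e4 : ((F.card : ℝ) + Ms.card + 2) ^ 4 ≤ ((2 : ℝ) ^ (y + 1)) ^ 4 :=
      pow_le_pow_left₀ (by positivity) e2 4
    have e5 : 4 * ((2 : ℝ) ^ (y + 1)) ^ 4 = (2 : ℝ) ^ (4 * y + 6) := by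
      rw [← Real.rpow_natCast ((2 : ℝ) ^ (y + 1)) 4, ← Real.rpow_mul (by norm_num),
        show (4 : ℝ) = (2 : ℝ) ^ (2 : ℝ) by norm_num, ← Real.rpow_add (by norm_num)]
      congr 1
      push_cast
      norm_num
      ring
    calc (S.length : ℝ) ≤ 4 * ((2 : ℝ) ^ (y + 1)) ^ 4 := by linarith
      _ = (2 : ℝ) ^ (4 * y + 6) := e5
      _ ≤ (2 : ℝ) ^ (y * y) := Real.rpow_le_rpow_of_exponent_le (by norm_num) (by nlinarith)
  have hW := h7 S hS hlen hSD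
  obtain ⟨E, U, iE, dE, iU, dU, src, tgt, u0, dd, hG, hE⟩ := exists_GH (w n) (w n ^ 3) (by
    have e1 : (w n + 1) ^ 2 ≤ 4 * w n ^ 2 := by nlinarith
    calc 10 ^ 10 * (w n + 1) ^ 2 ≤ 10 ^ 10 * (4 * w n ^ 2) := Nat.mul_le_mul_left _ e1
      _ = (4 * 10 ^ 10) * w n ^ 2 := by ring
      _ ≤ w n * w n ^ 2 := Nat.mul_le_mul_right _ (by omega)
      _ = w n ^ 3 := by ring)
  obtain ⟨val, hval⟩ := world_small hW (VH E) (by
    rw [card_VH]; exact ⟨_, rfl⟩) (by rw [card_VH]; exact hE)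
  refine ⟨E, U, iE, dE, iU, dU, src, tgt, u0, dd, w n, val, {A | A ∈ S}, hG, hval, ?_, hB2⟩
  have hset : (((insert 0 Ms : Finset (Fm ℕ →₀ ℕ))) : Set (Fm ℕ →₀ ℕ)) = {m | m = 0 ∨ m ∈ Ms} := by
    ext m
    rw [Finset.mem_coe, Finset.mem_insert]
    rfl
  rw [← hset]
  convert hB

end Pool.Agent.H3.Alg
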