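import Mathlib
import Pool.Agent.H3.Alg.AxZ

set_option autoImplicit false
set_option linter.unusedSectionVars false

/-!
# The polynomial calculus: soundness of the pseudo-model
-/

namespace Pool.Agent.H3.Alg

open Finset Pool.Agent.H3.Frg Pool.Agent.H3.Frg2 Pool.Agent.H3.Ac Pool.Agent.H3.Wd MvPolynomial

variable {W : Type}
variable {E U : Type} [Fintype E] [DecidableEq E] [Fintype U] [DecidableEq U]
variable {src tgt : E → U} {u0 : U} {K : Type} [Field K]
  {val : Fm W → Finset (Sym2 (VH E)) → Option Bool} {S Ax : Set (Fm W)} {d w : ℕ}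

/-- invariant of the lines -/
def Inv (K : Type) [Field K] (src tgt : E → U) (u0 : U)
    (val : Fm W → Finset (Sym2 (VH E)) → Option Bool) (d w : ℕ) (v0 : W)
    (f : MvPolynomial (Fm W) K) : Prop :=
  KZ src tgt d (sgn K src tgt u0) (L1 w) (fun a => phi K src tgt u0 val w v0 a f)

theorem inv_lin {v0 : W} {f g : MvPolynomial (Fm W) K} (α β : K)
    (hf : Inv K src tgt u0 val d w v0 f) (hg : Inv K src tgt u0 val d w v0 g) :
    Inv K src tgt u0 val d w v0 (α • f + β • g) := by
  have h1 : (fun a => phi K src tgt u0 val w v0 a (α • f + β • g))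
      = fun a => α * phi K src tgt u0 val w v0 a f + β * phi K src tgt u0 val w v0 a g := by
    funext a
    rw [map_add, map_smul, map_smul, smul_eq_mul, smul_eq_mul]
  unfold Inv
  rw [h1]
  exact KZ_add (KZ_smul _ hf) (KZ_smul _ hg)

theorem inv_mul (h2 : (2 : K) ≠ 0) (hGH : GH src tgt d w) (hW : World S Ax w (VH E) val)
    (hS : SubCl S) {v0 : W} {f : MvPolynomial (Fm W) K} {A : Fm W}
    (hf : Inv K src tgt u0 val d w v0 f) (hm : ∀ m ∈ f.support, Bm v0 m ∈ S)
    (hm' : ∀ m ∈ (X A * f).support, Bm v0 m ∈ S) :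
    Inv K src tgt u0 val d w v0 (X A * f) := by
  have hroom := hGH.room
  -- the value of the product
  have hXf : X A * f
      = ∑ m ∈ f.support, MvPolynomial.monomial (Finsupp.single A 1 + m) (f.coeff m) := by
    conv_lhs => rw [f.as_sum, Finset.mul_sum]
    refine Finset.sum_congr rfl fun m _ => ?_
    rw [show (X A : MvPolynomial (Fm W) K) = MvPolynomial.monomial (Finsupp.single A 1) 1 from rfl,
      MvPolynomial.monomial_mul, one_mul]
  have hmem : ∀ m ∈ f.support, Bm v0 (Finsupp.single A 1 + m) ∈ S := by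
    intro m hm1
    apply hm'
    rw [MvPolynomial.support_X_mul, Finset.mem_map]
    exact ⟨m, hm1, rfl⟩
  have h1 : (fun a => phi K src tgt u0 val w v0 a (X A * f))
      = fun a => (∑ m ∈ f.support, f.coeff m *
          (rb K (lb src tgt u0 val w a (Bm v0 (Finsupp.single A 1 + m)))
            - rb K (lb src tgt u0 val w a A) * rb K (lb src tgt u0 val w a (Bm v0 m))))
        + rb K (lb src tgt u0 val w a A) * phi K src tgt u0 val w v0 a f := by
    funext a
    conv_lhs => rw [hXf, map_sum]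
    rw [phi_sum v0 a f, Finset.mul_sum, ← Finset.sum_add_distrib]
    refine Finset.sum_congr rfl fun m _ => ?_
    rw [phi_monomial]
    ring
  unfold Inv
  rw [h1]
  refine KZ_add (KZ_sum _ _ _ fun m hm1 => ?_) ?_
  · refine pz_insert h2 hGH hW hS v0 (fun Y => ?_) (hmem m hm1) (hm m hm1) (by omega)
    rw [mem_support_add, mem_support_single one_ne_zero]
  · refine KZ_mul h2 (kdg_rb hGH A) (D := L1 w) ?_
    exact ktransfer hGH.exp sgn_mul_self (by omega) (phi_kdg hGH v0 f) hf (by omega)

/-- there is no refutation whose monomials are in `Ms` -/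
theorem no_pc (u0 : U) (h2 : (2 : K) ≠ 0) (hGH : GH src tgt d w) (hW : World S Ax w (VH E) val)
    {v0 : W} {F : Set (Fm W)} {Ms : Set (Fm W →₀ ℕ)} (hB : Big v0 F Ms S) {C : ℕ → Fm W}
    (hC : Set.range C ⊆ Ax) {L : ℕ} (pf : Fin L → MvPolynomial (Fm W) K)
    (hpf : PCRef K C F pf) (hMs : ∀ i, ∀ m ∈ (pf i).support, m ∈ Ms) : False := by
  have hroom := hGH.room
  have hinv : ∀ n : ℕ, ∀ i : Fin L, (i : ℕ) = n → Inv K src tgt u0 val d w v0 (pf i) := by
    intro n
    induction n using Nat.strong_induction_on with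
    | _ n ih =>
      intro i hi
      rcases hpf.1 i with h | ⟨j, hj, k, hk, α, β, h⟩ | ⟨j, hj, A, hA, h⟩
      · have h3 := ax_zero (K := K) (u0 := u0) h2 hGH hW hB hC hB.zero h (k := L1 w) (by omega)
        have h4 : MvPolynomial.monomial (0 : Fm W →₀ ℕ) (1 : K) * pf i = pf i := by
          rw [show MvPolynomial.monomial (0 : Fm W →₀ ℕ) (1 : K) = 1 from rfl, one_mul]
        rw [h4] at h3
        exact h3
      · rw [h]
        exact inv_lin α β (ih j (by rw [← hi]; exact hj) j rfl)
          (ih k (by rw [← hi]; exact hk) k rfl)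
      · have h3 := hMs i
        rw [h] at h3 ⊢
        exact inv_mul h2 hGH hW hB.sub (ih j (by rw [← hi]; exact hj) j rfl)
          (fun m hm => hB.one m (hMs j m hm)) (fun m hm => hB.one m (h3 m hm))
  obtain ⟨i, hi⟩ := hpf.2
  have h1 := hinv i i rfl
  rw [hi] at h1
  unfold Inv at h1
  have h3 := pz_one (K := K) (u0 := u0) h2 hGH hW hB.sub v0 (hB.one 0 hB.zero) (k := L1 w)
    (by omega)
  have h4 := KZ_add h1 (KZ_smul (-1) h3)
  refine not_KZ_one (K := K) (src := src) (tgt := tgt) (ε := sgn K src tgt u0) h2 hGH.exp (L1 w) ?_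
  convert h4 using 2 with a
  rw [show (1 : MvPolynomial (Fm W) K) = MvPolynomial.monomial 0 1 from rfl, phi_mon]
  ring

end Pool.Agent.H3.Alg
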