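import Mathlib
import Pool.Agent.H3.Alg.Four

set_option autoImplicit false
set_option linter.unusedSectionVars false

/-!
# Positivity of the pseudo-expectation on squares
-/

namespace Pool.Agent.H3.Alg

open Finset Pool.Agent.H3.Frg

variable {E : Type} [Fintype E] [DecidableEq E] {U : Type} [Fintype U] [DecidableEq U]
variable {src tgt : E → U} {d : ℕ} {ε : U → ℝ}

theorem bd_inj (hx : Expd src tgt d) {X Y : Finset U} (hX : X ∈ smallL src tgt d)
    (hY : Y ∈ smallL src tgt d) (h : bd src tgt X = bd src tgt Y) : X = Y := by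
  rw [mem_smallL] at hX hY
  have h1 : bd src tgt (symmDiff X Y) = ∅ := by
    rw [bd_symmDiff, h, symmDiff_self]
    rfl
  have h2 := card_symmDiff_le' X Y
  have h3 := hx.conn (symmDiff X Y) (by omega) h1
  rw [← Finset.bot_eq_empty] at h3
  exact symmDiff_eq_bot.1 h3

/-- the entries of the matrix -/
noncomputable def mE (src tgt : E → U) (d : ℕ) (ε : U → ℝ) (S T : Finset E) : ℝ :=
  ∑ X ∈ smallL src tgt d, if symmDiff S T = bd src tgt X then keps ε X else 0

theorem mE_of (hx : Expd src tgt d) {S T : Finset E} {X : Finset U}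
    (hX : X ∈ smallL src tgt d) (h : symmDiff S T = bd src tgt X) :
    mE src tgt d ε S T = keps ε X := by
  unfold mE
  rw [Finset.sum_eq_single X, if_pos h]
  · intro Y hY hne
    rw [if_neg]
    intro h'
    exact hne (bd_inj hx hY hX (h'.symm.trans h))
  · intro h'
    exact absurd hX h'

theorem kEt_chi_chi (S T : Finset E) :
    kEt src tgt d ε (fun z => kchi ℝ S z * kchi ℝ T z)
      = (2 : ℝ) ^ Fintype.card E * mE src tgt d ε S T := by
  unfold kEt mE
  rw [Finset.mul_sum]
  refine Finset.sum_congr rfl fun X _ => ?_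
  have h1 : (fun z => kchi ℝ S z * kchi ℝ T z) = kchi ℝ (symmDiff S T) := by
    funext z
    exact kchi_mul S T z
  rw [h1, kW_chi]
  split_ifs <;> ring

theorem kEt_sq_nonneg (hx : Expd src tgt d) (hε : ∀ w, ε w * ε w = 1)
    {Q : (E → Bool) → ℝ} {D : ℕ} (hQ : KDg Q D) (hD : 2 * D ≤ d) :
    0 ≤ kEt src tgt d ε (fun z => Q z * Q z) := by
  classical
  set I : Type := {S : Finset E // S.card ≤ D} with hI
  let q : I → ℝ := fun S => kW Q S.1
  let m : I → I → ℝ := fun S T => mE src tgt d ε S.1 T.1
  -- the relation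
  let r : Setoid I :=
    { r := fun S T => ∃ X ∈ smallL src tgt d, symmDiff S.1 T.1 = bd src tgt X
      iseqv := by
        refine ⟨?_, ?_, ?_⟩
        · intro S
          refine ⟨∅, ?_, ?_⟩
          · rw [mem_smallL, bd_empty]
            simp
          · rw [bd_empty, symmDiff_self]
            rfl
        · rintro S T ⟨X, h1, h2⟩
          exact ⟨X, h1, by rw [symmDiff_comm]; exact h2⟩
        · rintro S T R ⟨X, h1, h2⟩ ⟨Y, h3, h4⟩
          have h5 : symmDiff S.1 R.1 = bd src tgt (symmDiff X Y) := by
            rw [bd_symmDiff, ← h2, ← h4]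
            ext e
            simp only [Finset.mem_symmDiff]
            tauto
          refine ⟨symmDiff X Y, smallL_closed hx h1 h3 ?_, h5⟩
          rw [← h5]
          have := card_symmDiff_le' S.1 R.1
          have := S.2
          have := R.2
          omega }
  let rep : I → I := fun S => (Quotient.mk r S).out
  have hrep : ∀ S, r.r S (rep S) := fun S => by
    have h1 : Quotient.mk r (rep S) = Quotient.mk r S := Quotient.out_eq _
    exact r.symm (Quotient.exact h1)
  have hrepeq : ∀ S T, r.r S T ↔ rep S = rep T := by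
    intro S T
    constructor
    · intro h
      show (Quotient.mk r S).out = (Quotient.mk r T).out
      rw [Quotient.sound h]
    · intro h
      have h1 := hrep S
      rw [h] at h1
      exact r.trans h1 (r.symm (hrep T))
  have hm : ∀ S T, m S T = if rep S = rep T then m S (rep S) * m T (rep T) else 0 := by
    intro S T
    split_ifs with h
    · obtain ⟨X, h1, h2⟩ := hrep S
      obtain ⟨Y, h3, h4⟩ := hrep T
      have h5 : symmDiff S.1 T.1 = bd src tgt (symmDiff X Y) := by
        rw [bd_symmDiff, ← h2, ← h4, h]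
        ext e
        simp only [Finset.mem_symmDiff]
        tauto
      have h6 : symmDiff X Y ∈ smallL src tgt d := by
        refine smallL_closed hx h1 h3 ?_
        rw [← h5]
        have := card_symmDiff_le' S.1 T.1
        have := S.2
        have := T.2
        omega
      show mE src tgt d ε S.1 T.1 = mE src tgt d ε S.1 (rep S).1 * mE src tgt d ε T.1 (rep T).1
      rw [mE_of hx h6 h5, mE_of hx h1 h2, mE_of hx h3 h4, keps_symmDiff hε]
    · show mE src tgt d ε S.1 T.1 = 0
      unfold mE
      refine Finset.sum_eq_zero fun X hX => ?_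
      rw [if_neg]
      intro h2
      exact h ((hrepeq S T).1 ⟨X, hX, h2⟩)
  -- the sum of squares
  have hsum : ∑ S : I, ∑ T : I, q S * q T * m S T
      = ∑ c : I, (∑ S : I, if rep S = c then q S * m S (rep S) else 0) ^ 2 := by
    have h1 : ∀ c : I, (∑ S : I, if rep S = c then q S * m S (rep S) else 0) ^ 2
        = ∑ S : I, ∑ T : I, (if rep S = c then q S * m S (rep S) else 0)
          * (if rep T = c then q T * m T (rep T) else 0) := by
      intro c
      rw [pow_two, Finset.sum_mul_sum]
    simp only [h1]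
    conv_rhs => rw [Finset.sum_comm]
    refine Finset.sum_congr rfl fun S _ => ?_
    conv_rhs => rw [Finset.sum_comm]
    refine Finset.sum_congr rfl fun T _ => ?_
    rw [hm S T, Finset.sum_eq_single (rep S)]
    · rw [if_pos rfl]
      by_cases h : rep S = rep T
      · rw [if_pos h, if_pos h.symm]
        ring
      · rw [if_neg h, if_neg (Ne.symm h)]
        ring
    · intro c _ hc
      rw [if_neg (Ne.symm hc), zero_mul]
    · intro h
      exact absurd (Finset.mem_univ _) h
  -- expansion
  have hexp : ∀ z, (2 : ℝ) ^ Fintype.card E * Q z = ∑ S : I, q S * kchi ℝ S.1 z := by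
    intro z
    rw [← kinversion]
    have h1 : ∑ S : I, q S * kchi ℝ S.1 z
        = ∑ S ∈ (univ : Finset (Finset E)).filter (fun S => S.card ≤ D), kW Q S * kchi ℝ S z := by
      rw [← Finset.sum_subtype_eq_sum_filter]
      refine Finset.sum_bij (fun (S : I) _ => (⟨S.1, S.2⟩ : {S : Finset E // S.card ≤ D})) ?_ ?_ ?_ ?_
      · intro S _
        rw [Finset.mem_subtype]
        exact Finset.mem_univ _
      · intro S _ T _ h
        exact h
      · intro S _
        exact ⟨S, Finset.mem_univ _, rfl⟩
      · intro S _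
        rfl
    rw [h1, Finset.sum_filter]
    refine Finset.sum_congr rfl fun S _ => ?_
    split_ifs with h
    · rfl
    · rw [hQ S (by omega), zero_mul]
  have hfin : (2 : ℝ) ^ Fintype.card E * ((2 : ℝ) ^ Fintype.card E *
      kEt src tgt d ε (fun z => Q z * Q z))
      = (2 : ℝ) ^ Fintype.card E * ∑ S : I, ∑ T : I, q S * q T * m S T := by
    rw [← kEt_smul, ← kEt_smul]
    have h1 : (fun z => (2 : ℝ) ^ Fintype.card E * ((2 : ℝ) ^ Fintype.card E * (Q z * Q z)))
        = fun z => ∑ S : I, q S * ∑ T : I, q T * (kchi ℝ S.1 z * kchi ℝ T.1 z) := by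
      funext z
      have h2 : (2 : ℝ) ^ Fintype.card E * ((2 : ℝ) ^ Fintype.card E * (Q z * Q z))
          = ((2 : ℝ) ^ Fintype.card E * Q z) * ((2 : ℝ) ^ Fintype.card E * Q z) := by ring
      rw [h2, hexp, Finset.sum_mul]
      refine Finset.sum_congr rfl fun S _ => ?_
      rw [Finset.mul_sum, Finset.mul_sum]
      refine Finset.sum_congr rfl fun T _ => ?_
      ring
    rw [h1, kEt_sum, Finset.mul_sum]
    refine Finset.sum_congr rfl fun S _ => ?_
    rw [kEt_sum, Finset.mul_sum, Finset.mul_sum]
    refine Finset.sum_congr rfl fun T _ => ?_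
    rw [kEt_chi_chi]
    show q S * (q T * ((2 : ℝ) ^ Fintype.card E * mE src tgt d ε S.1 T.1))
      = (2 : ℝ) ^ Fintype.card E * (q S * q T * mE src tgt d ε S.1 T.1)
    ring
  have hpos : (0 : ℝ) < (2 : ℝ) ^ Fintype.card E := by positivity
  have h1 : (2 : ℝ) ^ Fintype.card E * kEt src tgt d ε (fun z => Q z * Q z)
      = ∑ S : I, ∑ T : I, q S * q T * m S T := mul_left_cancel₀ hpos.ne' hfin
  rw [hsum] at h1
  have h2 : 0 ≤ (2 : ℝ) ^ Fintype.card E * kEt src tgt d ε (fun z => Q z * Q z) := by
    rw [h1]
    exact Finset.sum_nonneg fun c _ => sq_nonneg _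
  exact nonneg_of_mul_nonneg_right h2 hpos

end Pool.Agent.H3.Alg
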