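import Mathlib
import Pool.Agent.H3.Alg.AxZ
import Pool.Agent.H3.Alg.Pos

set_option autoImplicit false
set_option linter.unusedSectionVars false

/-!
# Sums of squares: soundness of the pseudo-model
-/

namespace Pool.Agent.H3.Alg

open Finset Pool.Agent.H3.Frg Pool.Agent.H3.Frg2 Pool.Agent.H3.Ac Pool.Agent.H3.Wd MvPolynomial

variable {W : Type}
variable {E U : Type} [Fintype E] [DecidableEq E] [Fintype U] [DecidableEq U]
variable {src tgt : E → U} {u0 : U} {K : Type} [Field K]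
  {val : Fm W → Finset (Sym2 (VH E)) → Option Bool} {S Ax : Set (Fm W)} {d w : ℕ}

/-- the label of the conjunction of a product of two monomials -/
theorem pz_union (h2 : (2 : K) ≠ 0) (hGH : GH src tgt d w) (hW : World S Ax w (VH E) val)
    (hS : SubCl S) (v0 : W) {m1 m2 : Fm W →₀ ℕ} (h12 : Bm v0 (m1 + m2) ∈ S)
    (h1 : Bm v0 m1 ∈ S) (h2' : Bm v0 m2 ∈ S) {k : ℕ} (hk : k ≤ 6 * L1 w) :
    KZ src tgt d (sgn K src tgt u0) k (fun a => rb K (lb src tgt u0 val w a (Bm v0 (m1 + m2)))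
      - rb K (lb src tgt u0 val w a (Bm v0 m1)) * rb K (lb src tgt u0 val w a (Bm v0 m2))) := by
  refine pk (K := K) (u0 := u0) h2 hGH hW
    [Bm v0 (m1 + m2), Cm v0 (m1 + m2), Bm v0 m1, Cm v0 m1, Bm v0 m2, Cm v0 m2] ?_ (by simp)
    (fun x => rb K (x (Bm v0 (m1 + m2))) - rb K (x (Bm v0 m1)) * rb K (x (Bm v0 m2))) ?_ ?_ hk
  · intro X hX
    simp only [List.mem_cons, List.not_mem_nil, or_false] at hX
    rcases hX with rfl | rfl | rfl | rfl | rfl | rfl
    · exact h12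
    · exact hS.1 _ h12
    · exact h1
    · exact hS.1 _ h1
    · exact h2'
    · exact hS.1 _ h2'
  · intro x y hxy
    simp only [hxy (Bm v0 (m1 + m2)) (by simp), hxy (Bm v0 m1) (by simp),
      hxy (Bm v0 m2) (by simp)]
  · intro x M hM hv
    have e := cj_union hW.vals hW.coh hS v0 (room_cj hGH) (l := (m1 + m2).support.toList)
      (l1 := m1.support.toList) (l2 := m2.support.toList) (fun X => by
        rw [Finset.mem_toList, Finset.mem_toList, Finset.mem_toList]
        exact mem_support_add) h12 h1 h2' hM (hv (Bm v0 (m1 + m2)) (by simp))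
        (hv (Bm v0 m1) (by simp)) (hv (Bm v0 m2) (by simp)) (hv (Cm v0 (m1 + m2)) (by simp))
        (hv (Cm v0 m1) (by simp)) (hv (Cm v0 m2) (by simp))
    rw [e]
    cases x (Bm v0 m1) <;> cases x (Bm v0 m2) <;> simp [rb]

/-- the pseudo-expectation of a polynomial -/
noncomputable def LL (src tgt : E → U) (u0 : U)
    (val : Fm W → Finset (Sym2 (VH E)) → Option Bool) (d w : ℕ) (v0 : W)
    (f : MvPolynomial (Fm W) ℝ) : ℝ :=
  kEt src tgt d (sgn ℝ src tgt u0) (fun a => phi ℝ src tgt u0 val w v0 a f)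

theorem LL_add (v0 : W) (f g : MvPolynomial (Fm W) ℝ) :
    LL src tgt u0 val d w v0 (f + g)
      = LL src tgt u0 val d w v0 f + LL src tgt u0 val d w v0 g := by
  unfold LL
  rw [← kEt_add]
  congr 1
  funext a
  rw [map_add]

theorem LL_sum {ι : Type} (v0 : W) (s : Finset ι) (f : ι → MvPolynomial (Fm W) ℝ) :
    LL src tgt u0 val d w v0 (∑ i ∈ s, f i) = ∑ i ∈ s, LL src tgt u0 val d w v0 (f i) := by
  have h1 := kEt_sum (src := src) (tgt := tgt) (d := d) (ε := sgn ℝ src tgt u0) s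
    (fun _ => (1 : ℝ)) (fun i a => phi ℝ src tgt u0 val w v0 a (f i))
  unfold LL
  simp only [one_mul] at h1
  rw [← h1]
  congr 1
  funext a
  rw [map_sum]

theorem KZ_zero {ε : U → K} {k : ℕ} {p : (E → Bool) → K} (h : KZ src tgt d ε k p) :
    kEt src tgt d ε p = 0 := by
  have h1 := h ∅ (by simp)
  simp only [kchi_empty, one_mul] at h1
  exact h1

theorem kEt_eq_of_KZ {ε : U → K} {k : ℕ} {p q : (E → Bool) → K}
    (h : KZ src tgt d ε k (fun a => p a - q a)) : kEt src tgt d ε p = kEt src tgt d ε q := by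
  have h1 := KZ_zero h
  have h3 : (fun a => p a - q a) = fun a => p a + (-1) * q a := by
    funext a; ring
  rw [h3, kEt_add, kEt_smul] at h1
  linear_combination h1

/-- squares -/
theorem LL_sq (hGH : GH src tgt d w) (hW : World S Ax w (VH E) val) (hS : SubCl S) (v0 : W)
    (q : MvPolynomial (Fm W) ℝ) (h1 : ∀ m ∈ q.support, Bm v0 m ∈ S)
    (h12 : ∀ m1 ∈ q.support, ∀ m2 ∈ q.support, Bm v0 (m1 + m2) ∈ S) :
    0 ≤ LL src tgt u0 val d w v0 (q ^ 2) := by
  have h2 : (2 : ℝ) ≠ 0 := two_ne_zero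
  have hroom := hGH.room
  have hq2 : q ^ 2 = ∑ m1 ∈ q.support, ∑ m2 ∈ q.support,
      MvPolynomial.monomial (m1 + m2) (q.coeff m1 * q.coeff m2) := by
    conv_lhs => rw [pow_two, q.as_sum, Finset.sum_mul_sum]
    refine Finset.sum_congr rfl fun m1 _ => Finset.sum_congr rfl fun m2 _ => ?_
    rw [MvPolynomial.monomial_mul]
  have h3 : LL src tgt u0 val d w v0 (q ^ 2)
      = kEt src tgt d (sgn ℝ src tgt u0) (fun a => phi ℝ src tgt u0 val w v0 a q
        * phi ℝ src tgt u0 val w v0 a q) := by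
    unfold LL
    refine kEt_eq_of_KZ (k := 0) ?_
    have h4 : (fun a => phi ℝ src tgt u0 val w v0 a (q ^ 2)
        - phi ℝ src tgt u0 val w v0 a q * phi ℝ src tgt u0 val w v0 a q)
        = fun a => ∑ m1 ∈ q.support, q.coeff m1 * ∑ m2 ∈ q.support, q.coeff m2 *
          (rb ℝ (lb src tgt u0 val w a (Bm v0 (m1 + m2)))
            - rb ℝ (lb src tgt u0 val w a (Bm v0 m1)) * rb ℝ (lb src tgt u0 val w a (Bm v0 m2)))
        := by
      funext a
      rw [hq2, map_sum, phi_sum v0 a q, Finset.sum_mul_sum, ← Finset.sum_sub_distrib]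
      refine Finset.sum_congr rfl fun m1 _ => ?_
      rw [map_sum, ← Finset.sum_sub_distrib, Finset.mul_sum]
      refine Finset.sum_congr rfl fun m2 _ => ?_
      rw [phi_monomial]
      ring
    rw [h4]
    refine KZ_sum _ _ _ fun m1 hm1 => KZ_sum _ _ _ fun m2 hm2 => ?_
    exact pz_union h2 hGH hW hS v0 (h12 m1 hm1 m2 hm2) (h1 m1 hm1) (h1 m2 hm2) (by omega)
  rw [h3]
  exact kEt_sq_nonneg hGH.exp sgn_mul_self (phi_kdg hGH v0 q) (by omega)

/-- multiples of axioms -/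
theorem LL_ax (hGH : GH src tgt d w) (hW : World S Ax w (VH E) val) {v0 : W} {F : Set (Fm W)}
    {Ms : Set (Fm W →₀ ℕ)} (hB : Big v0 F Ms S) {C : ℕ → Fm W} (hC : Set.range C ⊆ Ax)
    {h p : MvPolynomial (Fm W) ℝ} (hh : ∀ m ∈ h.support, m ∈ Ms) (hp : FAx ℝ C F p) :
    LL src tgt u0 val d w v0 (h * p) = 0 := by
  unfold LL
  have h1 : (fun a => phi ℝ src tgt u0 val w v0 a (h * p))
      = fun a => ∑ m ∈ h.support, h.coeff m *
        phi ℝ src tgt u0 val w v0 a (MvPolynomial.monomial m 1 * p) := by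
    funext a
    conv_lhs => rw [h.as_sum, Finset.sum_mul, map_sum]
    refine Finset.sum_congr rfl fun m _ => ?_
    have h2 : MvPolynomial.monomial m (h.coeff m) * p
        = h.coeff m • (MvPolynomial.monomial m 1 * p) := by
      rw [← smul_mul_assoc, MvPolynomial.smul_monomial, smul_eq_mul, mul_one]
    rw [h2, map_smul, smul_eq_mul]
  rw [h1]
  refine KZ_zero (k := 0) (KZ_sum _ _ _ fun m hm => ?_)
  exact ax_zero two_ne_zero hGH hW hB hC (hh m hm) hp (by omega)

/-- there is no sum-of-squares refutation -/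
theorem no_sos (u0 : U) (hGH : GH src tgt d w) (hW : World S Ax w (VH E) val) {v0 : W}
    {F : Set (Fm W)} {Ms : Set (Fm W →₀ ℕ)} (hB : Big v0 F Ms S) {C : ℕ → Fm W}
    (hC : Set.range C ⊆ Ax) {J I : ℕ} (q : Fin J → MvPolynomial (Fm W) ℝ)
    (h p : Fin I → MvPolynomial (Fm W) ℝ) (href : SosRef C F q h p)
    (hq : ∀ j, ∀ m ∈ (q j).support, m ∈ Ms) (hh : ∀ i, ∀ m ∈ (h i).support, m ∈ Ms)
    (h12 : ∀ j, ∀ m1 ∈ (q j).support, ∀ m2 ∈ (q j).support, Bm v0 (m1 + m2) ∈ S) : False := by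
  obtain ⟨hp, _, _, hid⟩ := href
  have h1 : LL src tgt u0 val d w v0 (-1) = ∑ j, LL src tgt u0 val d w v0 (q j ^ 2)
      + ∑ i, LL src tgt u0 val d w v0 (h i * p i) := by
    rw [hid, LL_add, LL_sum, LL_sum]
  have h3 : ∑ i, LL src tgt u0 val d w v0 (h i * p i) = 0 :=
    Finset.sum_eq_zero fun i _ => LL_ax hGH hW hB hC (hh i) (hp i)
  have h4 : 0 ≤ ∑ j, LL src tgt u0 val d w v0 (q j ^ 2) :=
    Finset.sum_nonneg fun j _ => LL_sq hGH hW hB.sub v0 (q j)
      (fun m hm => hB.one m (hq j m hm)) (h12 j)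
  have h5 : LL src tgt u0 val d w v0 (-1) = - (2 : ℝ) ^ Fintype.card E := by
    have h6 : (-1 : MvPolynomial (Fm W) ℝ) = (-1 : ℝ) • MvPolynomial.monomial 0 1 := by
      rw [MvPolynomial.smul_monomial, smul_eq_mul, mul_one,
        show (1 : MvPolynomial (Fm W) ℝ) = MvPolynomial.monomial 0 1 from rfl, ← map_neg]
    unfold LL
    have h7 : (fun a => phi ℝ src tgt u0 val w v0 a (-1))
        = fun a => (-1) * rb ℝ (lb src tgt u0 val w a (Bm v0 0)) := by
      funext a
      rw [h6, map_smul, phi_mon, smul_eq_mul]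
    rw [h7, kEt_smul]
    have h8 := kEt_eq_of_KZ (pz_one (K := ℝ) (u0 := u0) two_ne_zero hGH hW hB.sub v0
      (hB.one 0 hB.zero) (k := 0) (by omega))
    rw [h8, kEt_one hGH.exp]
    ring
  have h9 : (0 : ℝ) < (2 : ℝ) ^ Fintype.card E := by positivity
  rw [h5, h3] at h1
  linarith

end Pool.Agent.H3.Alg
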