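import Mathlib
import Pool.Agent.H3.Alg.FinP
import Pool.Agent.H3.Alg.PC
import Pool.Agent.H3.Alg.Sos

set_option autoImplicit false
set_option linter.unusedSectionVars false

/-!
# Lower bounds for the polynomial calculus and for sums of squares over formulas
-/

namespace Pool.Agent.H3.Alg

open Finset Filter Topology Pool.Agent.H3.Frg Pool.Agent.H3.Frg2 Pool.Agent.H3.Frg3
  Pool.Agent.H3.Frg4 Pool.Agent.H3.Ac Pool.Agent.H3.Wd MvPolynomial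

theorem finPC (θ : ℝ) (hθ : θ < 2) (D : ℕ) :
    ∃ (k : ℕ) (ε : ℝ), 0 < ε ∧ ∃ (d : ℕ → ℕ) (C : ℕ → ℕ → Fm ℕ) (τ : ℕ → Fm ℕ),
      (∀ n, τ n = Fm.neg (bigAnd (d n) (C n))) ∧
      (∀ n i, IsClause k (C n i)) ∧
      (∀ n x, (τ n).eval x = true) ∧
      Tendsto (fun n => (τ n).enc.length) atTop atTop ∧
      ∀ᶠ n in atTop, ∀ F : Finset (Fm ℕ), SubCl (F : Set (Fm ℕ)) →
        (∀ A ∈ F, LDep (fun A => (A.enc.length : ℝ) ≤ ((τ n).enc.length : ℝ) ^ θ) D A) →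
        ∀ (K : Type) [Field K], (2 : K) ≠ 0 →
          ∀ (L : ℕ) (pf : Fin L → MvPolynomial (Fm ℕ) K), PCRef K (C n) (F : Set (Fm ℕ)) pf →
            (2 : ℝ) ^ (((τ n).enc.length : ℝ) ^ ε) ≤
              (F.card : ℝ) + {m : Fm ℕ →₀ ℕ | ∃ i, m ∈ (pf i).support}.ncard := by
  obtain ⟨k, ε, hε, d, C, τ, h1, h2, h3, h4, h5⟩ := fin_big θ hθ D
  refine ⟨k, ε, hε, d, C, τ, h1, h2, h3, h4, ?_⟩
  filter_upwards [h5] with n h6 F hF hFD K _ hK L pf hpf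
  by_contra hcon
  rw [not_le] at hcon
  classical
  set Ms : Finset (Fm ℕ →₀ ℕ) := univ.biUnion fun i => (pf i).support with hMs
  have hset : {m : Fm ℕ →₀ ℕ | ∃ i, m ∈ (pf i).support} = (Ms : Set (Fm ℕ →₀ ℕ)) := by
    ext m
    rw [Finset.mem_coe, hMs, Finset.mem_biUnion]
    simp
  rw [hset, Set.ncard_coe_finset] at hcon
  have hsupp : ∀ m ∈ Ms, ∀ A ∈ m.support, A ∈ F := by
    intro m hm A hA
    rw [hMs, Finset.mem_biUnion] at hm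
    obtain ⟨i, _, hi⟩ := hm
    exact Finset.mem_coe.1 (supp_of_supported (pc_supported hF hpf i) hi hA)
  obtain ⟨E, U, iE, dE, iU, dU, src, tgt, u0, dd, w, val, S, hG, hW, hB, _⟩ :=
    h6 F hF hFD Ms hsupp hcon
  exact no_pc u0 hK hG hW hB (Set.Subset.refl _) pf hpf fun i m hm => by
    right
    rw [hMs, Finset.mem_biUnion]
    exact ⟨i, Finset.mem_univ _, hm⟩

theorem finSos (θ : ℝ) (hθ : θ < 2) (D : ℕ) :
    ∃ (k : ℕ) (ε : ℝ), 0 < ε ∧ ∃ (d : ℕ → ℕ) (C : ℕ → ℕ → Fm ℕ) (τ : ℕ → Fm ℕ),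
      (∀ n, τ n = Fm.neg (bigAnd (d n) (C n))) ∧
      (∀ n i, IsClause k (C n i)) ∧
      (∀ n x, (τ n).eval x = true) ∧
      Tendsto (fun n => (τ n).enc.length) atTop atTop ∧
      ∀ᶠ n in atTop, ∀ F : Finset (Fm ℕ), SubCl (F : Set (Fm ℕ)) →
        (∀ A ∈ F, LDep (fun A => (A.enc.length : ℝ) ≤ ((τ n).enc.length : ℝ) ^ θ) D A) →
        ∀ (J I : ℕ) (q : Fin J → MvPolynomial (Fm ℕ) ℝ) (h p : Fin I → MvPolynomial (Fm ℕ) ℝ),
          SosRef (C n) (F : Set (Fm ℕ)) q h p →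
            (2 : ℝ) ^ (((τ n).enc.length : ℝ) ^ ε) ≤
              (F.card : ℝ) + {m : Fm ℕ →₀ ℕ | (∃ j, m ∈ (q j).support) ∨
                ∃ i, m ∈ (h i).support}.ncard := by
  obtain ⟨k, ε, hε, d, C, τ, h1, h2, h3, h4, h5⟩ := fin_big θ hθ D
  refine ⟨k, ε, hε, d, C, τ, h1, h2, h3, h4, ?_⟩
  filter_upwards [h5] with n h6 F hF hFD J I q h p href
  by_contra hcon
  rw [not_le] at hcon
  classical
  set Ms : Finset (Fm ℕ →₀ ℕ) := (univ.biUnion fun j => (q j).support) ∪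
    (univ.biUnion fun i => (h i).support) with hMs
  have hmem : ∀ m, m ∈ Ms ↔ (∃ j, m ∈ (q j).support) ∨ ∃ i, m ∈ (h i).support := by
    intro m
    rw [hMs, Finset.mem_union, Finset.mem_biUnion, Finset.mem_biUnion]
    simp
  have hset : {m : Fm ℕ →₀ ℕ | (∃ j, m ∈ (q j).support) ∨ ∃ i, m ∈ (h i).support}
      = (Ms : Set (Fm ℕ →₀ ℕ)) := by
    ext m
    rw [Finset.mem_coe, hmem m]
    rfl
  rw [hset, Set.ncard_coe_finset] at hcon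
  have hsupp : ∀ m ∈ Ms, ∀ A ∈ m.support, A ∈ F := by
    intro m hm A hA
    rcases (hmem m).1 hm with ⟨j, hj⟩ | ⟨i, hi⟩
    · exact Finset.mem_coe.1 (supp_of_supported (href.2.1 j) hj hA)
    · exact Finset.mem_coe.1 (supp_of_supported (href.2.2.1 i) hi hA)
  obtain ⟨E, U, iE, dE, iU, dU, src, tgt, u0, dd, w, val, S, hG, hW, hB, hB2⟩ :=
    h6 F hF hFD Ms hsupp hcon
  exact no_sos u0 hG hW hB (Set.Subset.refl _) q h p href
    (fun j m hm => Or.inr ((hmem m).2 (Or.inl ⟨j, hm⟩)))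
    (fun i m hm => Or.inr ((hmem m).2 (Or.inr ⟨i, hm⟩)))
    (fun j m1 hm1 m2 hm2 => hB2 m1 ((hmem m1).2 (Or.inl ⟨j, hm1⟩)) m2
      ((hmem m2).2 (Or.inl ⟨j, hm2⟩)))

end Pool.Agent.H3.Alg
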